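import Mathlib

/-!
One-variable calculus for curves on the boundary of the tube around the Clifford torus.
-/

namespace Pool.Agent.H370R3.CL

open scoped RealInnerProductSpace Topology
open WithLp

noncomputable section

/-- The space `ℂ^n` with its Euclidean structure. -/
abbrev Cn (n : ℕ) := PiLp 2 (fun _ : Fin n => ℂ)

variable {n : ℕ} {V : Type*} [NormedAddCommGroup V] [InnerProductSpace ℝ V]

theorem hasDerivAt_lp (Φ : Cn n ≃ₗᵢ[ℝ] V) {g : ℝ → Fin n → ℂ} {g' : Fin n → ℂ} {t : ℝ}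
    (h : ∀ i, HasDerivAt (fun s => g s i) (g' i) t) :
    HasDerivAt (fun s => Φ (toLp 2 (g s))) (Φ (toLp 2 g')) t := by
  have h1 : HasDerivAt g g' t := hasDerivAt_pi.2 h
  have h2 := ((PiLp.continuousLinearEquiv 2 ℝ (fun _ : Fin n => ℂ)).symm.toContinuousLinearMap
    |>.hasFDerivAt (x := g t)).comp_hasDerivAt t h1
  exact (Φ.toContinuousLinearEquiv.toContinuousLinearMap.hasFDerivAt
    (x := toLp 2 (g t))).comp_hasDerivAt t h2

theorem differentiableAt_deriv {W : Type*} [NormedAddCommGroup W] [NormedSpace ℝ W] {f : ℝ → W}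
    {t : ℝ} (h : ContDiffAt ℝ 2 f t) : DifferentiableAt ℝ (deriv f) t := by
  have h1 : ContDiffAt ℝ 1 (fderiv ℝ f) t := h.fderiv_right (by norm_num)
  have h2 : DifferentiableAt ℝ (fderiv ℝ f) t := h1.differentiableAt one_ne_zero
  have h3 : deriv f = fun s => fderiv ℝ f s 1 := by
    funext s
    exact (fderiv_apply_one_eq_deriv).symm
  rw [h3]
  exact h2.clm_apply (differentiableAt_const _)

theorem eventually_differentiableAt {W : Type*} [NormedAddCommGroup W] [NormedSpace ℝ W]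
    {f : ℝ → W} {t : ℝ} (h : ContDiffAt ℝ 2 f t) : ∀ᶠ s in 𝓝 t, DifferentiableAt ℝ f s := by
  have h1 := h.eventually (by simp)
  filter_upwards [h1] with s hs
  exact hs.differentiableAt two_ne_zero

theorem inner_lp (Φ : Cn n ≃ₗᵢ[ℝ] V) (a b : Fin n → ℂ) :
    ⟪Φ (toLp 2 a), Φ (toLp 2 b)⟫ = ∑ i, ⟪a i, b i⟫ := by
  rw [LinearIsometryEquiv.inner_map_map, PiLp.inner_apply]

theorem norm_lp (Φ : Cn n ≃ₗᵢ[ℝ] V) (a : Fin n → ℂ) :
    ‖Φ (toLp 2 a)‖ ^ 2 = ∑ i, ⟪a i, a i⟫ := by
  rw [← real_inner_self_eq_norm_sq, inner_lp]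

/-- The point of the tube boundary, scaled by `s`, with angular part `a` and normal part `w`. -/
def tube (Φ : Cn n ≃ₗᵢ[ℝ] V) (s : ℝ) (a : Fin n → ℂ) (w : Fin n → ℝ) : V :=
  Φ (toLp 2 fun i => (s * (1 + w i / 2)) • a i)

/-- The unit normal of the tube boundary. -/
def nor (Φ : Cn n ≃ₗᵢ[ℝ] V) (a : Fin n → ℂ) (w : Fin n → ℝ) : V :=
  Φ (toLp 2 fun i => w i • a i)

section Curve

variable (Φ : Cn n ≃ₗᵢ[ℝ] V) (s : ℝ) (A : ℝ → Fin n → ℂ) (w : ℝ → Fin n → ℝ)

theorem tube_deriv {t : ℝ} (hA : ∀ i, DifferentiableAt ℝ (fun r => A r i) t)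
    (hw : ∀ i, DifferentiableAt ℝ (fun r => w r i) t) :
    HasDerivAt (fun r => tube Φ s (A r) (w r)) (Φ (toLp 2 fun i =>
      (s * (1 + w t i / 2)) • deriv (fun r => A r i) t +
        (s * (deriv (fun r => w r i) t / 2)) • A t i)) t := by
  apply hasDerivAt_lp
  intro i
  have h1 := (hA i).hasDerivAt
  have h2 := (((hw i).hasDerivAt.div_const 2).const_add 1).const_mul s
  exact h2.smul h1

theorem nor_deriv {t : ℝ} (hA : ∀ i, DifferentiableAt ℝ (fun r => A r i) t)
    (hw : ∀ i, DifferentiableAt ℝ (fun r => w r i) t) :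
    HasDerivAt (fun r => nor Φ (A r) (w r)) (Φ (toLp 2 fun i =>
      w t i • deriv (fun r => A r i) t + (deriv (fun r => w r i) t) • A t i)) t := by
  apply hasDerivAt_lp
  intro i
  exact (hw i).hasDerivAt.smul (hA i).hasDerivAt

variable {A w}

theorem inner_A_deriv (hA1 : ∀ t i, ‖A t i‖ = 1) {t : ℝ} {i : Fin n}
    (hA : DifferentiableAt ℝ (fun r => A r i) t) :
    ⟪A t i, deriv (fun r => A r i) t⟫ = 0 := by
  have h1 := hA.hasDerivAt.norm_sq
  have h2 : (fun r => ‖A r i‖ ^ 2) = fun _ => (1 : ℝ) := by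
    funext r
    rw [hA1]
    norm_num
  rw [h2] at h1
  have h3 := h1.unique (hasDerivAt_const t (1 : ℝ))
  linarith

theorem sum_w_deriv (hw1 : ∀ t, ∑ i, w t i ^ 2 = 1) {t : ℝ}
    (hw : ∀ i, DifferentiableAt ℝ (fun r => w r i) t) :
    ∑ i, w t i * deriv (fun r => w r i) t = 0 := by
  have h1 : HasDerivAt (fun r => ∑ i, w r i ^ 2) (∑ i, 2 * (w t i) * deriv (fun r => w r i) t) t := by
    apply HasDerivAt.fun_sum
    intro i _
    have := (hw i).hasDerivAt.fun_pow 2
    simpa using this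
  have h2 : (fun r => ∑ i, w r i ^ 2) = fun _ => (1 : ℝ) := funext hw1
  rw [h2] at h1
  have h3 := h1.unique (hasDerivAt_const t (1 : ℝ))
  have h4 : ∑ i, 2 * (w t i) * deriv (fun r => w r i) t =
      2 * ∑ i, w t i * deriv (fun r => w r i) t := by
    rw [Finset.mul_sum]
    exact Finset.sum_congr rfl fun i _ => by ring
  linarith

theorem inner_A_self (hA1 : ∀ t i, ‖A t i‖ = 1) (t : ℝ) (i : Fin n) : ⟪A t i, A t i⟫ = 1 := by
  rw [real_inner_self_eq_norm_sq, hA1]
  norm_num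

theorem inner_tube_nor (hA1 : ∀ t i, ‖A t i‖ = 1) (hw1 : ∀ t, ∑ i, w t i ^ 2 = 1) {t : ℝ}
    (hA : ∀ i, DifferentiableAt ℝ (fun r => A r i) t)
    (hw : ∀ i, DifferentiableAt ℝ (fun r => w r i) t) :
    ⟪deriv (fun r => tube Φ s (A r) (w r)) t, nor Φ (A t) (w t)⟫ = 0 := by
  rw [(tube_deriv Φ s A w hA hw).deriv, nor, inner_lp]
  have h1 : ∀ i, ⟪(s * (1 + w t i / 2)) • deriv (fun r => A r i) t +
        (s * (deriv (fun r => w r i) t / 2)) • A t i, w t i • A t i⟫ =
        (s / 2) * (w t i * deriv (fun r => w r i) t) := by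
    intro i
    have h2 := inner_A_deriv hA1 (hA i)
    rw [real_inner_comm] at h2
    have h3 := inner_A_self hA1 t i
    rw [inner_add_left, real_inner_smul_left, real_inner_smul_left, real_inner_smul_right,
      real_inner_smul_right, h2, h3]
    ring
  rw [Finset.sum_congr rfl fun i _ => h1 i, ← Finset.mul_sum, sum_w_deriv hw1 hw, mul_zero]

theorem norm_deriv_tube (hA1 : ∀ t i, ‖A t i‖ = 1) {t : ℝ}
    (hA : ∀ i, DifferentiableAt ℝ (fun r => A r i) t)
    (hw : ∀ i, DifferentiableAt ℝ (fun r => w r i) t) :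
    ‖deriv (fun r => tube Φ s (A r) (w r)) t‖ ^ 2 =
      ∑ i, s ^ 2 * ((1 + w t i / 2) ^ 2 * ‖deriv (fun r => A r i) t‖ ^ 2 +
        (deriv (fun r => w r i) t / 2) ^ 2) := by
  rw [(tube_deriv Φ s A w hA hw).deriv, norm_lp]
  refine Finset.sum_congr rfl fun i _ => ?_
  have h2 := inner_A_deriv hA1 (hA i)
  have h2' := h2
  rw [real_inner_comm] at h2
  have h3 := inner_A_self hA1 t i
  have h4 := real_inner_self_eq_norm_sq (deriv (fun r => A r i) t)
  rw [inner_add_left, inner_add_right, inner_add_right]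
  simp only [real_inner_smul_left, real_inner_smul_right, h2, h2', h3, h4]
  ring

theorem inner_deriv_tube_nor (hA1 : ∀ t i, ‖A t i‖ = 1) {t : ℝ}
    (hA : ∀ i, DifferentiableAt ℝ (fun r => A r i) t)
    (hw : ∀ i, DifferentiableAt ℝ (fun r => w r i) t) :
    ⟪deriv (fun r => tube Φ s (A r) (w r)) t, deriv (fun r => nor Φ (A r) (w r)) t⟫ =
      ∑ i, s * ((1 + w t i / 2) * w t i * ‖deriv (fun r => A r i) t‖ ^ 2 +
        (deriv (fun r => w r i) t) ^ 2 / 2) := by
  rw [(tube_deriv Φ s A w hA hw).deriv, (nor_deriv Φ A w hA hw).deriv, inner_lp]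
  refine Finset.sum_congr rfl fun i _ => ?_
  have h2 := inner_A_deriv hA1 (hA i)
  have h2' := h2
  rw [real_inner_comm] at h2
  have h3 := inner_A_self hA1 t i
  have h4 := real_inner_self_eq_norm_sq (deriv (fun r => A r i) t)
  rw [inner_add_left, inner_add_right, inner_add_right]
  simp only [real_inner_smul_left, real_inner_smul_right, h2, h2', h3, h4]
  ring

/-- The normal acceleration of a curve on the tube boundary is at most `2 / s` times the square of
its speed. -/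
theorem curvature_bound (hs : 0 < s) (hA1 : ∀ t i, ‖A t i‖ = 1) (hw1 : ∀ t, ∑ i, w t i ^ 2 = 1)
    {t : ℝ} (hA : ∀ i, ContDiffAt ℝ 2 (fun r => A r i) t)
    (hw : ∀ i, ContDiffAt ℝ 2 (fun r => w r i) t) :
    |⟪iteratedDeriv 2 (fun r => tube Φ s (A r) (w r)) t, nor Φ (A t) (w t)⟫| ≤
      (2 / s) * ‖deriv (fun r => tube Φ s (A r) (w r)) t‖ ^ 2 := by
  have eA : ∀ᶠ r in 𝓝 t, ∀ i, DifferentiableAt ℝ (fun r => A r i) r :=
    Filter.eventually_all.2 fun i => eventually_differentiableAt (hA i)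
  have ew : ∀ᶠ r in 𝓝 t, ∀ i, DifferentiableAt ℝ (fun r => w r i) r :=
    Filter.eventually_all.2 fun i => eventually_differentiableAt (hw i)
  have hA' := eA.self_of_nhds
  have hw' := ew.self_of_nhds
  -- the derivative of the tube curve is differentiable
  have hd : DifferentiableAt ℝ (deriv (fun r => tube Φ s (A r) (w r))) t := by
    have h1 : deriv (fun r => tube Φ s (A r) (w r)) =ᶠ[𝓝 t] fun t => Φ (toLp 2 fun i =>
      (s * (1 + w t i / 2)) • deriv (fun r => A r i) t +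
        (s * (deriv (fun r => w r i) t / 2)) • A t i) := by
      filter_upwards [eA, ew] with r h1 h2
      exact (tube_deriv Φ s A w h1 h2).deriv
    refine h1.symm.differentiableAt_iff.1 ?_
    refine (hasDerivAt_lp Φ (g' := fun i => deriv (fun t =>
      (s * (1 + w t i / 2)) • deriv (fun r => A r i) t +
        (s * (deriv (fun r => w r i) t / 2)) • A t i) t) fun i => ?_).differentiableAt
    have h3 := differentiableAt_deriv (hA i)
    have h4 := differentiableAt_deriv (hw i)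
    have h5 := hA' i
    have h6 := hw' i
    apply DifferentiableAt.hasDerivAt
    have h7 : DifferentiableAt ℝ (fun t => s * (1 + w t i / 2)) t :=
      ((h6.div_const 2).const_add 1).const_mul s
    have h8 : DifferentiableAt ℝ (fun t => s * (deriv (fun r => w r i) t / 2)) t :=
      (h4.div_const 2).const_mul s
    exact (h7.smul h3).add (h8.smul h5)
  have hn := nor_deriv Φ A w hA' hw'
  have hz : (fun r => ⟪deriv (fun r => tube Φ s (A r) (w r)) r, nor Φ (A r) (w r)⟫) =ᶠ[𝓝 t]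
      fun _ => (0 : ℝ) := by
    filter_upwards [eA, ew] with r h1 h2
    exact inner_tube_nor Φ s hA1 hw1 h1 h2
  have h1 := (hd.hasDerivAt.inner ℝ hn.differentiableAt.hasDerivAt)
  have h2 := (h1.congr_of_eventuallyEq hz.symm).unique (hasDerivAt_const t (0 : ℝ))
  have h3 : ⟪iteratedDeriv 2 (fun r => tube Φ s (A r) (w r)) t, nor Φ (A t) (w t)⟫ =
      - ⟪deriv (fun r => tube Φ s (A r) (w r)) t, deriv (fun r => nor Φ (A r) (w r)) t⟫ := by
    have h4 : iteratedDeriv 2 (fun r => tube Φ s (A r) (w r)) =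
        deriv (deriv (fun r => tube Φ s (A r) (w r))) := by
      rw [iteratedDeriv_succ, iteratedDeriv_one]
    rw [h4]
    linarith
  rw [h3, abs_neg, inner_deriv_tube_nor Φ s hA1 hA' hw', norm_deriv_tube Φ s hA1 hA' hw',
    Finset.mul_sum]
  refine (Finset.abs_sum_le_sum_abs _ _).trans (Finset.sum_le_sum fun i _ => ?_)
  have hwi : |w t i| ≤ 1 := by
    have h5 : w t i ^ 2 ≤ ∑ j, w t j ^ 2 :=
      Finset.single_le_sum (f := fun j => w t j ^ 2) (fun j _ => sq_nonneg _) (Finset.mem_univ i)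
    rw [hw1] at h5
    exact abs_le_one_iff_mul_self_le_one.2 (by nlinarith)
  obtain ⟨hl, hr⟩ := abs_le.1 hwi
  set a := ‖deriv (fun r => A r i) t‖ ^ 2 with ha
  have ha0 : 0 ≤ a := sq_nonneg _
  set b := deriv (fun r => w r i) t with hb
  have e1 : 2 / s * (s ^ 2 * ((1 + w t i / 2) ^ 2 * a + (b / 2) ^ 2)) =
      s * (2 * (1 + w t i / 2) ^ 2 * a + b ^ 2 / 2) := by
    have hs0 : s ≠ 0 := hs.ne'
    have e0 : 2 / s * s ^ 2 = 2 * s := by
      rw [sq, ← mul_assoc, div_mul_cancel₀ _ hs0]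
    rw [← mul_assoc, e0]
    ring
  rw [e1, abs_mul, abs_of_pos hs]
  apply mul_le_mul_of_nonneg_left _ hs.le
  have e2 : 0 ≤ 1 + w t i / 2 := by linarith
  have e3 : 0 ≤ (1 + w t i / 2) * a := mul_nonneg e2 ha0
  rw [abs_le]
  constructor
  · nlinarith [mul_nonneg e3 (by linarith : (0 : ℝ) ≤ 1 + w t i), sq_nonneg b]
  · nlinarith [mul_nonneg e3 (by linarith : (0 : ℝ) ≤ 1 + w t i), sq_nonneg b]

/-- A curve on the tube boundary with vanishing velocity has stationary coordinates. -/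
theorem stationary (hs : 0 < s) (hA1 : ∀ t i, ‖A t i‖ = 1) (hw1 : ∀ t, ∑ i, w t i ^ 2 = 1)
    {t : ℝ} (hA : ∀ i, DifferentiableAt ℝ (fun r => A r i) t)
    (hw : ∀ i, DifferentiableAt ℝ (fun r => w r i) t)
    (h0 : deriv (fun r => tube Φ s (A r) (w r)) t = 0) (i : Fin n) :
    deriv (fun r => A r i) t = 0 ∧ deriv (fun r => w r i) t = 0 := by
  have h1 := norm_deriv_tube Φ s hA1 hA hw
  rw [h0, norm_zero] at h1
  have h2 := (Finset.sum_eq_zero_iff_of_nonneg (fun j _ => by positivity)).1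
    (h1.symm.trans (by norm_num)) i (Finset.mem_univ i)
  have hwi : |w t i| ≤ 1 := by
    have h5 : w t i ^ 2 ≤ ∑ j, w t j ^ 2 :=
      Finset.single_le_sum (f := fun j => w t j ^ 2) (fun j _ => sq_nonneg _) (Finset.mem_univ i)
    rw [hw1] at h5
    exact abs_le_one_iff_mul_self_le_one.2 (by nlinarith)
  obtain ⟨hl, hr⟩ := abs_le.1 hwi
  have h3 : (1 + w t i / 2) ^ 2 * ‖deriv (fun r => A r i) t‖ ^ 2 +
        (deriv (fun r => w r i) t / 2) ^ 2 = 0 := by
    rcases mul_eq_zero.1 h2 with h | h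
    · exact absurd h (by positivity)
    · exact h
  have h4 : (1 + w t i / 2) ^ 2 * ‖deriv (fun r => A r i) t‖ ^ 2 = 0 := by
    apply le_antisymm _ (by positivity)
    nlinarith [sq_nonneg (deriv (fun r => w r i) t / 2)]
  have h5 : (deriv (fun r => w r i) t / 2) ^ 2 = 0 := by linarith
  constructor
  · rcases mul_eq_zero.1 h4 with h | h
    · have : 1 + w t i / 2 = 0 := by simpa using h
      linarith
    · simpa using h
  · have := pow_eq_zero_iff (two_ne_zero) |>.1 h5
    linarith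

end Curve

end

end Pool.Agent.H370R3.CL
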