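import Mathlib

/-!
Definitions for the cup-length and curvature problem: singular cochains, the cup product and
cup-length; the second fundamental form of an immersion in a chart, unit speed geodesics of the
induced metric, and the two equivalent descriptions of the maximal normal curvature.
-/

namespace Pool.Agent.H370R3.CL

open scoped Manifold ContDiff ENNReal RealInnerProductSpace

noncomputable section

/-! ### Singular cochains and cup-length -/

section Cup

variable (K : Type*) [Field K] (X : Type*) [TopologicalSpace X]

/-- A singular `n`-simplex of `X`: a continuous map from the standard `n`-simplex to `X`. -/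
abbrev Simp (n : ℕ) := C(stdSimplex ℝ (Fin (n + 1)), X)

/-- The singular `n`-cochains of `X` with values in `K`. -/
abbrev Cochain (n : ℕ) := Simp X n → K

variable {K X}

/-- The singular simplex `σ` precomposed with the affine map of standard simplices which sends the
vertex `j` to the vertex `g j`. -/
def Simp.pull {n p : ℕ} (σ : Simp X n) (g : Fin (p + 1) → Fin (n + 1)) : Simp X p :=
  σ.comp ⟨stdSimplex.map g, stdSimplex.continuous_map g⟩

/-- The singular coboundary: the alternating sum over the faces. -/
def coboundary {n : ℕ} (c : Cochain K X n) : Cochain K X (n + 1) :=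
  fun σ => ∑ i : Fin (n + 2), (-1) ^ (i : ℕ) * c (σ.pull (Fin.succAbove i))

/-- The cup product of cochains: `a` on the front `p`-face times `b` on the back `q`-face. -/
def cup {p q : ℕ} (a : Cochain K X p) (b : Cochain K X q) : Cochain K X (p + q) :=
  fun σ => a (Simp.pull (p := p) σ fun j => ⟨j, by omega⟩) *
    b (Simp.pull (p := q) σ fun j => ⟨p + j, by omega⟩)

/-- `IsCupProduct l d c` says that the `d`-cochain `c` is a cup product of `l` cocycles, each of
positive degree. -/
inductive IsCupProduct : ℕ → (d : ℕ) → Cochain K X d → Prop
  | single {p : ℕ} (hp : 1 ≤ p) (a : Cochain K X p) (ha : coboundary a = 0) : IsCupProduct 1 p a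
  | mul {l d p : ℕ} (b : Cochain K X d) (hb : IsCupProduct l d b) (hp : 1 ≤ p)
      (a : Cochain K X p) (ha : coboundary a = 0) : IsCupProduct (l + 1) (d + p) (cup b a)

/-- `IsCoboundary d c` says that the `d`-cochain `c` is a coboundary. -/
inductive IsCoboundary : (d : ℕ) → Cochain K X d → Prop
  | of {e : ℕ} (b : Cochain K X e) : IsCoboundary (e + 1) (coboundary b)

variable (K X)

/-- `X` has cup-length at least `l` over the field `K`: there are `l` cohomology classes of positive
degree (represented by cocycles) whose cup product is not zero in singular cohomology. -/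
def CupLengthAtLeast (l : ℕ) : Prop :=
  ∃ (d : ℕ) (c : Cochain K X d), IsCupProduct l d c ∧ ¬ IsCoboundary d c

end Cup

/-! ### Immersions and curvature -/

section Curv

variable {E : Type*} [NormedAddCommGroup E] [NormedSpace ℝ E] {H : Type*} [TopologicalSpace H]
  (I : ModelWithCorners ℝ E H) {X : Type*} [TopologicalSpace X] [ChartedSpace H X]
  {V : Type*} [NormedAddCommGroup V] [InnerProductSpace ℝ V]

/-- The curve in `X` that is the straight line through `x` with velocity `v` in the preferred chart
at `x`. -/
def chartLine (x : X) (v : E) (t : ℝ) : X :=
  (extChartAt I x).symm (extChartAt I x x + t • v)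

/-- The tangent space of the map `f` at `x`: the image of the differential. -/
def tangentImage (f : X → V) (x : X) : Submodule ℝ V :=
  LinearMap.range (mvfderiv I f x : TangentSpace I x →ₗ[ℝ] V)

/-- `secondForm I f x v` is the value `II(v, v)` of the second fundamental form of the immersion `f`
at `x`: the component, orthogonal to the image of the differential, of the second derivative of `f`
in the direction `v` in the preferred chart at `x`. -/
def secondForm [FiniteDimensional ℝ V] (f : X → V) (x : X) (v : TangentSpace I x) : V :=
  (tangentImage I f x)ᗮ.starProjection (iteratedDeriv 2 (fun t : ℝ => f (chartLine I x v t)) 0)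

/-- The maximal normal curvature, as the supremum of `|II(v, v)|` over all tangent vectors `v` of
unit length in the induced metric. -/
def curvII [FiniteDimensional ℝ V] (f : X → V) : ℝ≥0∞ :=
  ⨆ (x : X) (v : TangentSpace I x) (_ : ‖mvfderiv I f x v‖ = 1), ‖secondForm I f x v‖ₑ

/-- `γ` is a unit speed geodesic of the metric induced by the immersion `f`: it is twice
continuously differentiable, has unit speed, and the acceleration of `f ∘ γ` is orthogonal to the
image of the differential of `f`. -/
structure IsUnitGeodesic (f : X → V) (γ : ℝ → X) : Prop where
  smooth : ContMDiff 𝓘(ℝ, ℝ) I 2 γ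
  unit : ∀ t, ‖deriv (fun s => f (γ s)) t‖ = 1
  normal : ∀ t, ∀ w ∈ tangentImage I f (γ t), ⟪iteratedDeriv 2 (fun s => f (γ s)) t, w⟫ = 0

/-- The maximal normal curvature, as the supremum over all unit speed geodesics `γ` of the induced
metric of the Euclidean curvature `|(f ∘ γ)''|` of the unit speed curve `f ∘ γ`. -/
def curvGeod (f : X → V) : ℝ≥0∞ :=
  ⨆ (γ : ℝ → X) (_ : IsUnitGeodesic I f γ) (t : ℝ), ‖iteratedDeriv 2 (fun s => f (γ s)) t‖ₑ

end Curv

end

end Pool.Agent.H370R3.CL
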