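import Mathlib
import Pool.Agent.H370R3.CLDefs

/-!
Degree one classes of a space with continuous maps to the circle, and the nonvanishing of the cup
product of the coordinate classes of a space which contains a torus.
-/

namespace Pool.Agent.H370R3.CL

open scoped Topology
open Real

noncomputable section

/-! ### Lifting maps from a simplex to the circle -/

abbrev EV (n : ℕ) := EuclideanSpace ℝ (Fin n)

theorem lift_EV {n : ℕ} (f : EV n → ℂ) (hf : Continuous f) (h0 : ∀ x, f x ≠ 0) :
    ∃ θ : EV n → ℝ, Continuous θ ∧ ∀ x, f x = ‖f x‖ * Complex.exp (θ x * Complex.I) := by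
  have he : Complex.exp (Complex.log (f 0)) = (⟨f, hf⟩ : C(EV n, ℂ)) 0 := Complex.exp_log (h0 0)
  obtain ⟨F, ⟨-, hF⟩, -⟩ := Complex.isCoveringMapOn_exp.existsUnique_continuousMap_lifts
    (⟨f, hf⟩ : C(EV n, ℂ)) (a₀ := (0 : EV n)) he (fun a => by simpa using h0 a)
  refine ⟨fun x => (F x).im, by fun_prop, fun x => ?_⟩
  have hx : Complex.exp (F x) = f x := congrFun hF x
  rw [← hx, Complex.norm_exp]
  conv_lhs => rw [← Complex.re_add_im (F x), Complex.exp_add]
  rw [Complex.ofReal_exp]

/-- A retraction of Euclidean space onto the standard simplex. -/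
def retr {m : ℕ} (x : EV (m + 1)) : stdSimplex ℝ (Fin (m + 1)) :=
  ⟨fun i => (|x i| + max 0 (1 - ∑ j, |x j|) / (m + 1)) / max 1 (∑ j, |x j|), by
    have hS : 0 ≤ ∑ j, |x j| := Finset.sum_nonneg fun j _ => abs_nonneg _
    have hm : 0 < max 1 (∑ j, |x j|) := lt_of_lt_of_le one_pos (le_max_left _ _)
    constructor
    · intro i
      have : 0 ≤ max 0 (1 - ∑ j, |x j|) := le_max_left _ _
      have h2 : (0 : ℝ) < m + 1 := by positivity
      positivity
    · rw [← Finset.sum_div, div_eq_one_iff_eq hm.ne', Finset.sum_add_distrib, Finset.sum_const,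
        Finset.card_univ, Fintype.card_fin, nsmul_eq_mul]
      have h2 : ((m + 1 : ℕ) : ℝ) * (max 0 (1 - ∑ j, |x j|) / (m + 1)) =
          max 0 (1 - ∑ j, |x j|) := by
        push_cast
        field_simp
      rw [h2]
      rcases le_total 1 (∑ j, |x j|) with h | h
      · rw [max_eq_left (by linarith), max_eq_right h]
        ring
      · rw [max_eq_right (by linarith), max_eq_left h]
        ring⟩

theorem continuous_retr {m : ℕ} : Continuous (retr (m := m)) := by
  unfold retr
  refine Continuous.subtype_mk (continuous_pi fun i => ?_) _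
  refine Continuous.div₀ (by fun_prop) (by fun_prop) fun x => ?_
  exact (lt_of_lt_of_le one_pos (le_max_left _ _)).ne'

theorem retr_coe {m : ℕ} (s : stdSimplex ℝ (Fin (m + 1))) :
    retr (WithLp.toLp 2 (s : Fin (m + 1) → ℝ)) = s := by
  apply Subtype.ext
  funext i
  have h1 : ∀ j, |s.1 j| = s.1 j := fun j => abs_of_nonneg (s.2.1 j)
  have h2 : ∑ j, |s.1 j| = 1 := by
    rw [Finset.sum_congr rfl fun j _ => h1 j]
    exact s.2.2
  change (|s.1 i| + max 0 (1 - ∑ j, |s.1 j|) / (m + 1)) / max 1 (∑ j, |s.1 j|) = s.1 i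
  rw [h2, h1]
  simp

/-- A continuous map from a simplex to the circle lifts to the line. -/
theorem exists_lift {m : ℕ} (u : C(stdSimplex ℝ (Fin (m + 1)), Circle)) :
    ∃ L : C(stdSimplex ℝ (Fin (m + 1)), ℝ), ∀ s, Circle.exp (2 * π * L s) = u s := by
  obtain ⟨θ, hθ, hθ2⟩ := lift_EV (n := m + 1) (fun x => (u (retr x) : ℂ))
    (continuous_subtype_val.comp (u.continuous.comp continuous_retr)) (fun x => Circle.coe_ne_zero _)
  refine ⟨⟨fun s => θ (WithLp.toLp 2 (s : Fin (m + 1) → ℝ)) / (2 * π), ?_⟩, fun s => ?_⟩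
  · exact (hθ.comp ((PiLp.continuous_toLp 2 _).comp continuous_subtype_val)).div_const _
  · have h1 := hθ2 (WithLp.toLp 2 (s : Fin (m + 1) → ℝ))
    rw [retr_coe] at h1
    apply Circle.ext
    rw [Circle.coe_exp, h1, Circle.norm_coe]
    have h2 : (2 * π : ℝ) ≠ 0 := by positivity
    simp only [ContinuousMap.coe_mk]
    rw [mul_div_cancel₀ _ h2]
    simp

/-- The principal argument, normalised so that the full turn is one. -/
def pa (z : Circle) : ℝ := Complex.arg z / (2 * π)

theorem exp_pa (z : Circle) : Circle.exp (2 * π * pa z) = z := by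
  unfold pa
  have h2 : (2 * π : ℝ) ≠ 0 := by positivity
  rw [mul_div_cancel₀ _ h2]
  exact Circle.exp_arg z

theorem pa_one : pa 1 = 0 := by
  unfold pa
  simp

theorem int_of_exp {x y : ℝ} (h : Circle.exp (2 * π * x) = Circle.exp (2 * π * y)) :
    ∃ m : ℤ, x = y + m := by
  obtain ⟨m, hm⟩ := Circle.exp_eq_exp.1 h
  refine ⟨m, ?_⟩
  have h2 : (0 : ℝ) < 2 * π := by positivity
  have : 2 * π * x = 2 * π * (y + m) := by rw [hm]; ring
  exact mul_left_cancel₀ h2.ne' this

theorem lift_unique {m : ℕ} {L L' : C(stdSimplex ℝ (Fin (m + 1)), ℝ)}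
    (h : ∀ s, Circle.exp (2 * π * L s) = Circle.exp (2 * π * L' s)) (s t) :
    L s - L' s = L t - L' t := by
  have h1 : ∀ s, ∃ k : ℤ, L s - L' s = k := by
    intro s
    obtain ⟨k, hk⟩ := int_of_exp (h s)
    exact ⟨k, by linarith⟩
  choose k hk using h1
  have hc : Continuous k := by
    rw [Int.isClosedEmbedding_coe_real.isInducing.continuous_iff]
    have : (Int.cast ∘ k : _ → ℝ) = fun s => L s - L' s := by
      funext s
      exact (hk s).symm
    rw [this]
    fun_prop
  have h2 : k s = k t := by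
    have := PreconnectedSpace.constant (α := stdSimplex ℝ (Fin (m + 1))) inferInstance hc (x := s) (y := t)
    exact this
  rw [hk, hk, h2]

/-! ### Degree one classes -/

section Classes

variable {X : Type*} [TopologicalSpace X]

/-- A vertex of the standard simplex. -/
abbrev vtx {m : ℕ} (j : Fin (m + 1)) : stdSimplex ℝ (Fin (m + 1)) := stdSimplex.vertex j

theorem pull_apply {n p : ℕ} (σ : Simp X n) (g : Fin (p + 1) → Fin (n + 1)) (s) :
    (σ.pull g) s = σ (stdSimplex.map g s) := rfl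

/-- A chosen lift of a circle valued function along a singular simplex. -/
def clift (p : C(X, Circle)) {m : ℕ} (σ : Simp X m) : C(stdSimplex ℝ (Fin (m + 1)), ℝ) :=
  (exists_lift (p.comp σ)).choose

theorem clift_spec (p : C(X, Circle)) {m : ℕ} (σ : Simp X m) (s) :
    Circle.exp (2 * π * clift p σ s) = p (σ s) := (exists_lift (p.comp σ)).choose_spec s

/-- The winding of a circle valued function along a singular edge, relative to the principal
argument: an integer. -/
def wind (p : C(X, Circle)) (σ : Simp X 1) : ℤ :=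
  round ((clift p σ (vtx 1) - pa (p (σ (vtx 1)))) - (clift p σ (vtx 0) - pa (p (σ (vtx 0)))))

theorem wind_eq (p : C(X, Circle)) (σ : Simp X 1) (L : C(stdSimplex ℝ (Fin 2), ℝ))
    (hL : ∀ s, Circle.exp (2 * π * L s) = p (σ s)) :
    (wind p σ : ℝ) = (L (vtx 1) - pa (p (σ (vtx 1)))) - (L (vtx 0) - pa (p (σ (vtx 0)))) := by
  have h1 : clift p σ (vtx 1) - L (vtx 1) = clift p σ (vtx 0) - L (vtx 0) :=
    lift_unique (fun s => by rw [clift_spec, hL]) _ _
  have h2 : ∀ s, ∃ k : ℤ, L s = pa (p (σ s)) + k := fun s =>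
    int_of_exp (by rw [hL, exp_pa])
  obtain ⟨k1, hk1⟩ := h2 (vtx 1)
  obtain ⟨k0, hk0⟩ := h2 (vtx 0)
  have h3 : (clift p σ (vtx 1) - pa (p (σ (vtx 1)))) - (clift p σ (vtx 0) - pa (p (σ (vtx 0)))) =
      ((k1 - k0 : ℤ) : ℝ) := by
    push_cast
    linarith
  have h4 : wind p σ = k1 - k0 := by
    unfold wind
    rw [h3, round_intCast]
  rw [h4, hk1, hk0]
  push_cast
  ring

theorem wind_pull (p : C(X, Circle)) {m : ℕ} (τ : Simp X m) (g : Fin (1 + 1) → Fin (m + 1))
    (L : C(stdSimplex ℝ (Fin (m + 1)), ℝ)) (hL : ∀ s, Circle.exp (2 * π * L s) = p (τ s)) :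
    (wind p (τ.pull g) : ℝ) = (L (vtx (g 1)) - pa (p (τ (vtx (g 1))))) -
      (L (vtx (g 0)) - pa (p (τ (vtx (g 0))))) := by
  have h1 := wind_eq p (τ.pull g) (L.comp ⟨stdSimplex.map g, stdSimplex.continuous_map g⟩)
    (fun s => hL _)
  rw [h1]
  simp only [ContinuousMap.comp_apply, ContinuousMap.coe_mk, pull_apply, stdSimplex.map_vertex]

variable (K : Type*) [Field K]

/-- The winding cochain with values in `K`. -/
def wc (p : C(X, Circle)) : Cochain K X 1 := fun σ => (wind p σ : K)

theorem wc_cocycle (p : C(X, Circle)) : coboundary (wc K p) = 0 := by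
  funext τ
  obtain ⟨L, hL⟩ := exists_lift (p.comp τ)
  have h0 := wind_pull p τ (Fin.succAbove 0) L hL
  have h1 := wind_pull p τ (Fin.succAbove 1) L hL
  have h2 := wind_pull p τ (Fin.succAbove 2) L hL
  have e1 : Fin.succAbove (0 : Fin 3) (1 : Fin 2) = 2 := by decide
  have e2 : Fin.succAbove (0 : Fin 3) (0 : Fin 2) = 1 := by decide
  have e3 : Fin.succAbove (1 : Fin 3) (1 : Fin 2) = 2 := by decide
  have e4 : Fin.succAbove (1 : Fin 3) (0 : Fin 2) = 0 := by decide
  have e5 : Fin.succAbove (2 : Fin 3) (1 : Fin 2) = 1 := by decide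
  have e6 : Fin.succAbove (2 : Fin 3) (0 : Fin 2) = 0 := by decide
  rw [e1, e2] at h0
  rw [e3, e4] at h1
  rw [e5, e6] at h2
  have h3 : wind p (τ.pull (Fin.succAbove 0)) - wind p (τ.pull (Fin.succAbove 1)) +
      wind p (τ.pull (Fin.succAbove 2)) = 0 := by
    have : ((wind p (τ.pull (Fin.succAbove 0)) - wind p (τ.pull (Fin.succAbove 1)) +
      wind p (τ.pull (Fin.succAbove 2)) : ℤ) : ℝ) = ((0 : ℤ) : ℝ) := by
      push_cast
      rw [h0, h1, h2]
      ring
    exact Int.cast_injective this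
  have h4 : ((wind p (τ.pull (Fin.succAbove 0)) - wind p (τ.pull (Fin.succAbove 1)) +
      wind p (τ.pull (Fin.succAbove 2)) : ℤ) : K) = 0 := by
    rw [h3]
    simp
  push_cast at h4
  have h5 : coboundary (wc K p) τ = ∑ i : Fin 3, (-1) ^ (i : ℕ) * (wind p (τ.pull (Fin.succAbove i)) : K) :=
    rfl
  rw [h5, Fin.sum_univ_three]
  simp only [Fin.val_zero, Fin.val_one, Fin.val_two, pow_zero, pow_one, one_mul, Pi.zero_apply]
  rw [← h4]
  ring

/-- The cup product of the first `l + 1` winding cochains. -/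
def cp (P : ℕ → C(X, Circle)) : (l : ℕ) → Cochain K X (l + 1)
  | 0 => wc K (P 0)
  | l + 1 => cup (cp P l) (wc K (P (l + 1)))

theorem isCupProduct_cp (P : ℕ → C(X, Circle)) (l : ℕ) : IsCupProduct (l + 1) (l + 1) (cp K P l) := by
  induction l with
  | zero => exact IsCupProduct.single le_rfl _ (wc_cocycle K _)
  | succ l ih => exact IsCupProduct.mul _ ih le_rfl _ (wc_cocycle K _)

end Classes

/-! ### Simplices in the torus -/

section Torus

variable {X : Type*} [TopologicalSpace X] {n : ℕ} (J : C(Fin n → Circle, X))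

/-- The singular simplex which is the image of the affine simplex with integral vertices `V k`. -/
def tsimp {m : ℕ} (V : Fin (m + 1) → Fin n → ℤ) : Simp X m :=
  J.comp ⟨fun s i => Circle.exp (2 * π * ∑ k, s k * V k i), by
    refine continuous_pi fun i => Circle.exp.continuous.comp ?_
    refine continuous_const.mul (continuous_finsetSum _ fun k _ => ?_)
    exact ((continuous_apply k).comp continuous_subtype_val).mul continuous_const⟩

theorem tsimp_apply {m : ℕ} (V : Fin (m + 1) → Fin n → ℤ) (s) :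
    tsimp J V s = J (fun i => Circle.exp (2 * π * ∑ k, s k * V k i)) := rfl

theorem tsimp_pull {m r : ℕ} (V : Fin (m + 1) → Fin n → ℤ) (g : Fin (r + 1) → Fin (m + 1)) :
    (tsimp J V).pull g = tsimp J (fun k => V (g k)) := by
  ext s
  rw [pull_apply, tsimp_apply, tsimp_apply]
  congr 1
  funext i
  congr 2
  simp only [stdSimplex.map_coe, FunOnFinite.linearMap_apply_apply, Finset.sum_mul]
  rw [← Finset.sum_fiberwise (s := Finset.univ) (g := g)]
  refine Finset.sum_congr rfl fun k _ => Finset.sum_congr rfl fun l hl => ?_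
  rw [(Finset.mem_filter.1 hl).2]

theorem tsimp_shift {m : ℕ} (V : Fin (m + 1) → Fin n → ℤ) (w : Fin n → ℤ) :
    tsimp J (fun k i => V k i + w i) = tsimp J V := by
  ext s
  rw [tsimp_apply, tsimp_apply]
  congr 1
  funext i
  have h1 : ∑ k, s k * ((V k i + w i : ℤ) : ℝ) = (∑ k, s k * V k i) + w i := by
    push_cast
    simp only [mul_add, Finset.sum_add_distrib, ← Finset.sum_mul]
    rw [stdSimplex.sum_eq_one]
    ring
  rw [h1, mul_add, Circle.exp_add, Circle.exp_two_pi_mul_int, mul_one]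

variable (p : Fin n → C(X, Circle)) (hp : ∀ i u, p i (J u) = u i)

include hp in
theorem wind_tsimp (V : Fin (1 + 1) → Fin n → ℤ) (i : Fin n) :
    wind (p i) (tsimp J V) = V 1 i - V 0 i := by
  have hv : ∀ j : Fin (1 + 1), ∑ k, (vtx j : stdSimplex ℝ (Fin (1 + 1))) k * (V k i : ℝ) = V j i := by
    intro j
    rw [Finset.sum_eq_single j]
    · simp
    · intro b _ hb
      simp [hb]
    · simp
  have h1 := wind_eq (p i) (tsimp J V) ⟨fun s => ∑ k, s k * V k i, by
    refine (continuous_finsetSum _ fun k _ => ?_)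
    exact ((continuous_apply k).comp continuous_subtype_val).mul continuous_const⟩ (fun s => by
      rw [tsimp_apply, hp]
      rfl)
  have h2 : ∀ j : Fin (1 + 1), p i (tsimp J V (vtx j)) = 1 := by
    intro j
    rw [tsimp_apply, hp, hv, Circle.exp_two_pi_mul_int]
  rw [h2, h2, pa_one] at h1
  simp only [ContinuousMap.coe_mk, sub_zero] at h1
  have h3 : (wind (p i) (tsimp J V) : ℝ) = ((V 1 i - V 0 i : ℤ) : ℝ) := by
    rw [h1]
    push_cast
    rw [← hv 1, ← hv 0]
  exact Int.cast_injective h3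

variable (K : Type*) [Field K]

include hp in
theorem cp_tsimp (ι : ℕ → Fin n) (l : ℕ) (V : Fin (l + 2) → Fin n → ℤ) :
    cp K (fun k => p (ι k)) l (tsimp J V) =
      ∏ k : Fin (l + 1), ((V k.succ (ι k) - V k.castSucc (ι k) : ℤ) : K) := by
  induction l with
  | zero =>
    change ((wind (p (ι 0)) (tsimp J V) : ℤ) : K) = _
    rw [wind_tsimp J p hp]
    simp
  | succ l ih =>
    change cp K (fun k => p (ι k)) l ((tsimp J V).pull fun j => ⟨j, by omega⟩) *
      ((wind (p (ι (l + 1))) ((tsimp J V).pull fun j => ⟨l + 1 + j, by omega⟩) : ℤ) : K) = _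
    rw [tsimp_pull, tsimp_pull, ih, wind_tsimp J p hp, Fin.prod_univ_castSucc (n := l + 1)]
    rfl

end Torus

/-! ### The fundamental cycle of the torus -/

section Fundamental

variable {X : Type*} [TopologicalSpace X] {q : ℕ} (J : C(Fin (q + 1) → Circle, X))

/-- The vertices of the simplex of the cube attached to a permutation. -/
def vv (ρ : Equiv.Perm (Fin (q + 1))) (k : Fin (q + 2)) (i : Fin (q + 1)) : ℤ :=
  if ((ρ.symm i : Fin (q + 1)) : ℕ) < (k : ℕ) then 1 else 0

theorem vv_swap (ρ : Equiv.Perm (Fin (q + 1))) {a b : Fin (q + 1)} (hab : (a : ℕ) + 1 = b)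
    {k : Fin (q + 2)} (hk : (k : ℕ) ≠ b) (i : Fin (q + 1)) :
    vv (ρ * Equiv.swap a b) k i = vv ρ k i := by
  have h1 : (ρ * Equiv.swap a b).symm i = Equiv.swap a b (ρ.symm i) := by
    rw [Equiv.symm_apply_eq, Equiv.Perm.mul_apply, Equiv.swap_apply_self, Equiv.apply_symm_apply]
  unfold vv
  rw [h1, Equiv.swap_apply_def]
  have h2 : ((if ρ.symm i = a then b else if ρ.symm i = b then a else ρ.symm i : Fin (q + 1)) : ℕ) <
      (k : ℕ) ↔ ((ρ.symm i : Fin (q + 1)) : ℕ) < (k : ℕ) := by
    split_ifs with h3 h4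
    · rw [h3]
      omega
    · rw [h4]
      omega
    · rfl
  simp only [h2]

theorem vv_rotate (ρ : Equiv.Perm (Fin (q + 1))) (j i : Fin (q + 1)) :
    vv ρ j.succ i = vv (ρ * finRotate (q + 1)) j.castSucc i + if ρ.symm i = 0 then 1 else 0 := by
  obtain ⟨y, hy⟩ : ∃ y, finRotate (q + 1) y = ρ.symm i := (finRotate (q + 1)).surjective _
  have h1 : (ρ * finRotate (q + 1)).symm i = y := by
    rw [Equiv.symm_apply_eq, Equiv.Perm.mul_apply, hy, Equiv.apply_symm_apply]
  unfold vv
  rw [h1, ← hy]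
  by_cases hl : y = Fin.last q
  · have h2 : ¬ (q : ℕ) < (j : ℕ) := by omega
    rw [hl, finRotate_last]
    simp [h2]
  · have h2 := coe_finRotate_of_ne_last hl
    have h3 : finRotate (q + 1) y ≠ 0 := by
      intro h
      rw [h] at h2
      simp at h2
    rw [h2, if_neg h3, add_zero]
    simp only [Fin.val_succ, Fin.val_castSucc, Nat.add_lt_add_iff_right]

variable (K : Type*) [Field K]

theorem face_interior (b : Cochain K X q) (k : Fin q) :
    ∑ ρ : Equiv.Perm (Fin (q + 1)), ((Equiv.Perm.sign ρ : ℤ) : K) *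
      b (tsimp J (fun j => vv ρ ((Fin.castSucc k).succ.succAbove j))) = 0 := by
  have hab : ((k.castSucc : Fin (q + 1)) : ℕ) + 1 = (k.succ : Fin (q + 1)) := by simp
  have hne : (k.castSucc : Fin (q + 1)) ≠ k.succ := by
    intro h
    have := congrArg Fin.val h
    simp at this
  have hv : ∀ ρ : Equiv.Perm (Fin (q + 1)),
      (fun j : Fin (q + 1) => vv (ρ * Equiv.swap k.castSucc k.succ) ((Fin.castSucc k).succ.succAbove j)) =
        fun j => vv ρ ((Fin.castSucc k).succ.succAbove j) := by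
    intro ρ
    funext j i
    apply vv_swap ρ hab
    intro h
    have h2 : (Fin.castSucc k).succ.succAbove j = (Fin.castSucc k).succ := by
      apply Fin.ext
      rw [h]
      simp
    exact Fin.succAbove_ne _ _ h2
  refine Finset.sum_involution (fun ρ _ => ρ * Equiv.swap k.castSucc k.succ) ?_ ?_ ?_ ?_
  · intro ρ _
    rw [hv, Equiv.Perm.sign_mul, Equiv.Perm.sign_swap hne]
    push_cast
    ring
  · intro ρ _ _ h
    have h2 : Equiv.swap (k.castSucc : Fin (q + 1)) k.succ = 1 := by
      simpa using h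
    exact hne (Equiv.swap_eq_one_iff.1 h2)
  · intro ρ _
    exact Finset.mem_univ _
  · intro ρ _
    rw [mul_assoc, Equiv.swap_mul_self, mul_one]

theorem face_extreme (b : Cochain K X q) :
    ∑ ρ : Equiv.Perm (Fin (q + 1)), ((Equiv.Perm.sign ρ : ℤ) : K) *
      b (tsimp J (fun j => vv ρ j.succ)) = (-1) ^ q *
    ∑ ρ : Equiv.Perm (Fin (q + 1)), ((Equiv.Perm.sign ρ : ℤ) : K) *
      b (tsimp J (fun j => vv ρ j.castSucc)) := by
  have h1 : ∀ ρ : Equiv.Perm (Fin (q + 1)), tsimp J (fun j => vv ρ j.succ) =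
      tsimp J (fun j => vv (ρ * finRotate (q + 1)) j.castSucc) := by
    intro ρ
    rw [← tsimp_shift J (fun j => vv (ρ * finRotate (q + 1)) j.castSucc)
      (fun i => if ρ.symm i = 0 then 1 else 0)]
    congr 1
    funext j i
    exact vv_rotate ρ j i
  have hR := Equiv.sum_comp (Equiv.mulRight (finRotate (q + 1)))
    (fun ρ : Equiv.Perm (Fin (q + 1)) => ((Equiv.Perm.sign ρ : ℤ) : K) *
      b (tsimp J (fun j => vv ρ j.castSucc)))
  rw [← hR, Finset.mul_sum]
  refine Finset.sum_congr rfl fun ρ _ => ?_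
  rw [h1, Equiv.coe_mulRight, Equiv.Perm.sign_mul, sign_finRotate]
  push_cast
  have h2 : ((-1 : K) ^ q) * (-1) ^ q = 1 := by
    rw [← mul_pow]
    simp
  calc _ = (((-1 : K) ^ q) * (-1) ^ q) * (((Equiv.Perm.sign ρ : ℤ) : K) *
      b (tsimp J fun j => vv (ρ * finRotate (q + 1)) j.castSucc)) := by rw [h2, one_mul]
    _ = _ := by ring

/-- A coboundary pairs to zero with the fundamental cycle. -/
theorem pairing_coboundary (b : Cochain K X q) :
    ∑ ρ : Equiv.Perm (Fin (q + 1)), ((Equiv.Perm.sign ρ : ℤ) : K) *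
      coboundary b (tsimp J (vv ρ)) = 0 := by
  have h1 : ∀ ρ : Equiv.Perm (Fin (q + 1)), coboundary b (tsimp J (vv ρ)) =
      ∑ k : Fin (q + 2), (-1) ^ (k : ℕ) * b (tsimp J (fun j => vv ρ (k.succAbove j))) := by
    intro ρ
    unfold coboundary
    refine Finset.sum_congr rfl fun k _ => ?_
    rw [tsimp_pull]
  simp only [h1, Finset.mul_sum]
  rw [Finset.sum_comm]
  have h2 : ∀ k : Fin (q + 2), ∑ ρ : Equiv.Perm (Fin (q + 1)), ((Equiv.Perm.sign ρ : ℤ) : K) *
      ((-1) ^ (k : ℕ) * b (tsimp J (fun j => vv ρ (k.succAbove j)))) =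
      (-1) ^ (k : ℕ) * ∑ ρ : Equiv.Perm (Fin (q + 1)), ((Equiv.Perm.sign ρ : ℤ) : K) *
        b (tsimp J (fun j => vv ρ (k.succAbove j))) := by
    intro k
    rw [Finset.mul_sum]
    exact Finset.sum_congr rfl fun ρ _ => by ring
  simp only [h2]
  rw [Fin.sum_univ_succ, Fin.sum_univ_castSucc]
  have h3 : ∀ k : Fin q, (-1 : K) ^ (((Fin.castSucc k).succ : Fin (q + 2)) : ℕ) *
      ∑ ρ : Equiv.Perm (Fin (q + 1)), ((Equiv.Perm.sign ρ : ℤ) : K) *
        b (tsimp J (fun j => vv ρ ((Fin.castSucc k).succ.succAbove j))) = 0 := by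
    intro k
    rw [face_interior J K b k, mul_zero]
  rw [Finset.sum_eq_zero fun k _ => h3 k]
  have h4 : ∀ j : Fin (q + 1), (0 : Fin (q + 2)).succAbove j = j.succ := fun j => Fin.zero_succAbove j
  have h5 : ∀ j : Fin (q + 1), (Fin.last q).succ.succAbove j = j.castSucc := fun j => by
    rw [Fin.succ_last, Fin.succAbove_last]
  simp only [h4, h5]
  rw [face_extreme]
  simp only [Fin.val_zero, pow_zero, one_mul, Fin.succ_last, Fin.val_last, zero_add]
  rw [pow_succ]
  ring

/-- The product of the coordinate classes pairs to one with the fundamental cycle. -/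
theorem pairing_cp (p : Fin (q + 1) → C(X, Circle)) (hp : ∀ i u, p i (J u) = u i) :
    ∑ ρ : Equiv.Perm (Fin (q + 1)), ((Equiv.Perm.sign ρ : ℤ) : K) *
      cp K (fun k => p (Fin.ofNat (q + 1) k)) q (tsimp J (vv ρ)) = 1 := by
  have h0 : ∀ k : Fin (q + 1), Fin.ofNat (q + 1) (k : ℕ) = k := fun k => by simp
  rw [Finset.sum_eq_single 1]
  · rw [cp_tsimp J p hp K (fun k => Fin.ofNat (q + 1) k)]
    rw [Finset.prod_eq_one]
    · simp
    · intro k _
      rw [h0]
      have h1 : (Equiv.symm (1 : Equiv.Perm (Fin (q + 1)))) k = k := rfl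
      simp [vv, h1]
  · intro ρ _ hρ
    obtain ⟨k, hk⟩ : ∃ k, ρ.symm k ≠ k := by
      by_contra hcon
      push Not at hcon
      apply hρ
      ext k
      have := hcon k
      rw [Equiv.symm_apply_eq] at this
      rw [← this]
      rfl
    rw [cp_tsimp J p hp K (fun k => Fin.ofNat (q + 1) k)]
    rw [Finset.prod_eq_zero (i := k) (Finset.mem_univ _), mul_zero]
    rw [h0]
    have h1 : ((ρ.symm k : Fin (q + 1)) : ℕ) ≠ (k : ℕ) := fun h => hk (Fin.ext h)
    have h2 : vv ρ k.succ k = vv ρ k.castSucc k := by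
      unfold vv
      have : ((ρ.symm k : Fin (q + 1)) : ℕ) < (k.succ : Fin (q + 2)) ↔
          ((ρ.symm k : Fin (q + 1)) : ℕ) < (k.castSucc : Fin (q + 2)) := by
        simp only [Fin.val_succ, Fin.val_castSucc]
        omega
      simp only [this]
    rw [h2]
    simp
  · intro h
    exact absurd (Finset.mem_univ _) h

/-- A space which retracts, up to the coordinate functions, to a torus of dimension `q + 1` has
cup-length at least `q + 1` over every field. -/
theorem cupLength_of_torus (p : Fin (q + 1) → C(X, Circle)) (hp : ∀ i u, p i (J u) = u i) :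
    CupLengthAtLeast K X (q + 1) := by
  refine ⟨q + 1, cp K (fun k => p (Fin.ofNat (q + 1) k)) q, isCupProduct_cp K _ q, ?_⟩
  intro h
  have h1 := pairing_cp J K p hp
  generalize cp K (fun k => p (Fin.ofNat (q + 1) k)) q = c at h h1
  cases h with
  | of b =>
    rw [pairing_coboundary J K b] at h1
    exact zero_ne_one h1

end Fundamental

end

end Pool.Agent.H370R3.CL
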