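import Mathlib
import Pool.Agent.H370R3.CLDefs

/-!
The finite power of a smooth manifold as a smooth manifold.
-/

namespace Pool.Agent.H370R3.CL

open scoped Manifold ContDiff Topology
open Set

section Pi

variable {ι : Type*} [Fintype ι] {E : ι → Type*} [∀ i, NormedAddCommGroup (E i)]
  [∀ i, NormedSpace ℝ (E i)]
  {H : ι → Type*} [∀ i, TopologicalSpace (H i)] (I : ∀ i, ModelWithCorners ℝ (E i) (H i))
  {M : ι → Type*} [∀ i, TopologicalSpace (M i)] [∀ i, ChartedSpace (H i) (M i)]

theorem isManifold_pi (n : WithTop ℕ∞) [hM : ∀ i, IsManifold (I i) n (M i)] :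
    IsManifold (ModelWithCorners.pi I) n (∀ i, M i) := by
  apply isManifold_of_contDiffOn
  rintro _ _ ⟨e, he, rfl⟩ ⟨e', he', rfl⟩
  rw [contDiffOn_pi]
  intro i
  have h := ((contDiffGroupoid n (I i)).compatible (he i trivial) (he' i trivial)).1
  have h2 : ContDiffOn ℝ n (fun y : (∀ i, E i) => y i)
      ((ModelWithCorners.pi I).symm ⁻¹'
        ((OpenPartialHomeomorph.pi e).symm ≫ₕ OpenPartialHomeomorph.pi e').source ∩
        range (ModelWithCorners.pi I)) := (ContinuousLinearMap.proj (R := ℝ) (φ := E) i).contDiff.contDiffOn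
  refine h.comp h2 ?_
  rintro y ⟨hy, z, rfl⟩
  refine ⟨?_, z i, rfl⟩
  have h3 : (fun j => (I j).symm ((I j) (z j))) ∈
      ((OpenPartialHomeomorph.pi e).symm ≫ₕ OpenPartialHomeomorph.pi e').source := hy
  rw [OpenPartialHomeomorph.trans_source] at h3 ⊢
  exact ⟨h3.1 i trivial, h3.2 i trivial⟩

theorem boundaryless_pi [hI : ∀ i, (I i).Boundaryless] : (ModelWithCorners.pi I).Boundaryless := by
  refine ⟨?_⟩
  rw [eq_univ_iff_forall]
  intro y
  have h : ∀ i, ∃ z, (I i) z = y i := fun i => by
    have := (hI i).range_eq_univ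
    exact this.ge (mem_univ (y i))
  choose z hz using h
  exact ⟨z, funext hz⟩

theorem extChartAt_pi_symm_apply (x : ∀ i, M i) (y : ∀ i, E i) (i : ι) :
    (extChartAt (ModelWithCorners.pi I) x).symm y i = (extChartAt (I i) (x i)).symm (y i) := rfl

theorem extChartAt_pi_apply (x : ∀ i, M i) (y : ∀ i, M i) (i : ι) :
    extChartAt (ModelWithCorners.pi I) x y i = extChartAt (I i) (x i) (y i) := rfl

theorem contMDiff_pi_proj (n : WithTop ℕ∞) (i : ι) :
    ContMDiff (ModelWithCorners.pi I) (I i) n (fun x : (∀ i, M i) => x i) := by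
  intro x
  rw [contMDiffAt_iff]
  refine ⟨(continuous_apply i).continuousAt, ?_⟩
  have h : ContDiffWithinAt ℝ n (fun y : (∀ i, E i) => y i) (range (ModelWithCorners.pi I))
      (extChartAt (ModelWithCorners.pi I) x x) := (ContinuousLinearMap.proj (R := ℝ) (φ := E) i).contDiff.contDiffWithinAt
  refine h.congr_of_eventuallyEq ?_ ?_
  · filter_upwards [extChartAt_target_mem_nhdsWithin (I := ModelWithCorners.pi I) x] with y hy
    have hy' : y i ∈ (extChartAt (I i) (x i)).target := by
      rw [extChartAt_target] at hy ⊢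
      refine ⟨hy.1 i trivial, ?_⟩
      obtain ⟨z, hz⟩ := hy.2
      exact ⟨z i, congrFun hz i⟩
    exact (extChartAt (I i) (x i)).right_inv hy'
  · exact (extChartAt (I i) (x i)).right_inv ((extChartAt (I i) (x i)).map_source
      (mem_extChartAt_source (I := I i) (x i)))

end Pi

section Line

variable {E : Type*} [NormedAddCommGroup E] [NormedSpace ℝ E] {H : Type*} [TopologicalSpace H]
  (I : ModelWithCorners ℝ E H) {X : Type*} [TopologicalSpace X] [ChartedSpace H X]
  {V : Type*} [NormedAddCommGroup V] [NormedSpace ℝ V]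

theorem chartLine_zero (x : X) (v : E) : chartLine I x v 0 = x := by
  unfold chartLine
  simp

theorem contMDiffAt_chartLine [I.Boundaryless] (n : WithTop ℕ∞) [IsManifold I n X] (x : X) (v : E) :
    ContMDiffAt 𝓘(ℝ, ℝ) I n (chartLine I x v) 0 := by
  have h1 : ContMDiffAt 𝓘(ℝ, E) I n (extChartAt I x).symm (extChartAt I x x) :=
    (contMDiffOn_extChartAt_symm x).contMDiffAt (extChartAt_target_mem_nhds x)
  have h2 : ContMDiffAt 𝓘(ℝ, ℝ) 𝓘(ℝ, E) n (fun t : ℝ => extChartAt I x x + t • v) 0 := by
    rw [contMDiffAt_iff_contDiffAt]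
    fun_prop
  refine ContMDiffAt.comp (x := (0 : ℝ)) (g := (extChartAt I x).symm) ?_ h2
  simpa using h1

theorem deriv_chartLine [I.Boundaryless] (x : X) (f : X → V) (hf : MDifferentiableAt I 𝓘(ℝ, V) f x)
    (v : TangentSpace I x) : HasDerivAt (fun t => f (chartLine I x v t)) (mvfderiv I f x v) 0 := by
  have h1 := hf.mvfderiv
  have h2 := hf.differentiableWithinAt_writtenInExtChartAt
  rw [I.range_eq_univ, fderivWithin_univ] at h1
  rw [I.range_eq_univ, differentiableWithinAt_univ] at h2
  let w : E := v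
  let D : E →L[ℝ] V := mvfderiv I f x
  have h3 : HasFDerivAt (fun y => f ((extChartAt I x).symm y)) D (extChartAt I x x) := by
    have h6 := h2.hasFDerivAt
    rw [← h1] at h6
    exact h6
  have h4 : HasDerivAt (fun t : ℝ => extChartAt I x x + t • w) w 0 := by
    have := ((hasDerivAt_id (0 : ℝ)).smul_const w).const_add (extChartAt I x x)
    simpa using this
  have h5 : HasFDerivAt (fun y => f ((extChartAt I x).symm y)) D
    (extChartAt I x x + (0 : ℝ) • w) := by simpa using h3
  exact h5.comp_hasDerivAt 0 h4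

end Line

end Pool.Agent.H370R3.CL
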