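import Mathlib
import Pool.Agent.H370R3.CLDefs
import Pool.Agent.H370R3.CLPi
import Pool.Agent.H370R3.CLCalc

/-!
The boundary of the tube around the Clifford torus, as an immersed closed manifold.
-/

namespace Pool.Agent.H370R3.CL

open scoped Manifold ContDiff Topology RealInnerProductSpace ENNReal
open WithLp Metric Set

noncomputable section

variable (q : ℕ)

instance factEuc : Fact (Module.finrank ℝ (EuclideanSpace ℝ (Fin (q + 1))) = q + 1) := ⟨by simp⟩

attribute [local instance] finrank_real_complex_fact'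

/-- The torus of dimension `q + 1`. -/
abbrev Tor := Fin (q + 1) → Circle

/-- The round sphere of dimension `q`. -/
abbrev Nrm := sphere (0 : EuclideanSpace ℝ (Fin (q + 1))) 1

/-- The closed manifold of dimension `2 q + 1`. -/
abbrev XX := Tor q × Nrm q

/-- The model vector space. -/
abbrev EE := (Fin (q + 1) → EuclideanSpace ℝ (Fin 1)) × EuclideanSpace ℝ (Fin q)

/-- The model space. -/
abbrev HH := ModelProd (ModelPi fun _ : Fin (q + 1) => EuclideanSpace ℝ (Fin 1))
  (EuclideanSpace ℝ (Fin q))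

/-- The model with corners (without boundary) of the torus. -/
abbrev IT : ModelWithCorners ℝ (Fin (q + 1) → EuclideanSpace ℝ (Fin 1))
    (ModelPi fun _ : Fin (q + 1) => EuclideanSpace ℝ (Fin 1)) :=
  ModelWithCorners.pi fun _ : Fin (q + 1) => 𝓡 1

/-- The model with corners (without boundary) of the manifold. -/
abbrev IX : ModelWithCorners ℝ (EE q) (HH q) := (IT q).prod (𝓡 q)

instance instTor (n : WithTop ℕ∞) : IsManifold (IT q) n (Tor q) := isManifold_pi _ n

instance instXX (n : WithTop ℕ∞) : IsManifold (IX q) n (XX q) := inferInstance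

instance instBT : (IT q).Boundaryless := boundaryless_pi _

instance instBX : (IX q).Boundaryless := inferInstance

theorem finrank_EE : Module.finrank ℝ (EE q) = 2 * q + 1 := by
  rw [Module.finrank_prod, Module.finrank_pi_fintype]
  simp
  ring

variable {q}

theorem smooth_A (n : WithTop ℕ∞) (i : Fin (q + 1)) :
    ContMDiff (IX q) 𝓘(ℝ, ℂ) n (fun x : XX q => (x.1 i : ℂ)) := by
  have h1 : ContMDiff (𝓡 1) 𝓘(ℝ, ℂ) n (fun z : Circle => (z : ℂ)) := contMDiff_coe_sphere
  have h2 : ContMDiff (IT q) (𝓡 1) n (fun u : Tor q => u i) :=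
    contMDiff_pi_proj (fun _ : Fin (q + 1) => 𝓡 1) n i
  exact (h1.comp h2).comp contMDiff_fst

theorem smooth_W (n : WithTop ℕ∞) :
    ContMDiff (IX q) 𝓘(ℝ, EuclideanSpace ℝ (Fin (q + 1))) n
      (fun x : XX q => (x.2 : EuclideanSpace ℝ (Fin (q + 1)))) := by
  have h1 : ContMDiff (𝓡 q) 𝓘(ℝ, EuclideanSpace ℝ (Fin (q + 1))) n
    (fun z : Nrm q => (z : EuclideanSpace ℝ (Fin (q + 1)))) := contMDiff_coe_sphere
  exact h1.comp contMDiff_snd

theorem smooth_w (n : WithTop ℕ∞) (i : Fin (q + 1)) :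
    ContMDiff (IX q) 𝓘(ℝ, ℝ) n (fun x : XX q => (x.2 : EuclideanSpace ℝ (Fin (q + 1))) i) := by
  have h1 : ContMDiff 𝓘(ℝ, EuclideanSpace ℝ (Fin (q + 1))) 𝓘(ℝ, ℝ) n
      (fun y : EuclideanSpace ℝ (Fin (q + 1)) => y i) := by
    rw [contMDiff_iff_contDiff]
    fun_prop
  exact h1.comp (smooth_W n)

/-- The angular coordinates. -/
def cA (x : XX q) (i : Fin (q + 1)) : ℂ := (x.1 i : ℂ)

/-- The normal coordinates. -/
def cW (x : XX q) (i : Fin (q + 1)) : ℝ := (x.2 : EuclideanSpace ℝ (Fin (q + 1))) i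

theorem cA_norm (x : XX q) (i : Fin (q + 1)) : ‖cA x i‖ = 1 := Circle.norm_coe _

theorem cW_sum (x : XX q) : ∑ i, cW x i ^ 2 = 1 := by
  have h1 : ‖(x.2 : EuclideanSpace ℝ (Fin (q + 1)))‖ ^ 2 = 1 := by
    rw [mem_sphere_zero_iff_norm.1 x.2.2]
    norm_num
  rw [EuclideanSpace.norm_sq_eq] at h1
  simpa [cW] using h1

variable {V : Type*} [NormedAddCommGroup V] [InnerProductSpace ℝ V]
  (Φ : Cn (q + 1) ≃ₗᵢ[ℝ] V) (s : ℝ)

/-- The embedding of the tube boundary. -/
def ff (x : XX q) : V := tube Φ s (cA x) (cW x)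

theorem smooth_ff (n : WithTop ℕ∞) : ContMDiff (IX q) 𝓘(ℝ, V) n (ff Φ s : XX q → V) := by
  have h1 : ContMDiff (IX q) 𝓘(ℝ, Fin (q + 1) → ℂ) n (fun x : XX q => fun i =>
      (s * (1 + cW x i / 2)) • cA x i) := by
    rw [contMDiff_pi_space]
    intro i
    have h2 := smooth_A (q := q) n i
    have h3 := smooth_w (q := q) n i
    have h4 : ContMDiff (𝓘(ℝ, ℝ × ℂ)) 𝓘(ℝ, ℂ) n (fun p : ℝ × ℂ => (s * (1 + p.1 / 2)) • p.2) := by
      rw [contMDiff_iff_contDiff]
      fun_prop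
    exact h4.comp (h3.prodMk_space h2)
  have h5 : ContMDiff 𝓘(ℝ, Fin (q + 1) → ℂ) 𝓘(ℝ, V) n (fun g : Fin (q + 1) → ℂ =>
      Φ (toLp 2 g)) := by
    rw [contMDiff_iff_contDiff]
    exact (Φ.toContinuousLinearEquiv.toContinuousLinearMap.comp
      (PiLp.continuousLinearEquiv 2 ℝ (fun _ : Fin (q + 1) => ℂ)).symm.toContinuousLinearMap).contDiff
  exact h5.comp h1

/-- Smooth coordinates along a curve. -/
theorem curve_smooth {γ : ℝ → XX q} {t : ℝ} (hγ : ContMDiffAt 𝓘(ℝ, ℝ) (IX q) 2 γ t) :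
    (∀ i, ContDiffAt ℝ 2 (fun r => cA (γ r) i) t) ∧
      (∀ i, ContDiffAt ℝ 2 (fun r => cW (γ r) i) t) := by
  constructor
  · intro i
    rw [← contMDiffAt_iff_contDiffAt]
    exact (smooth_A 2 i).contMDiffAt.comp t hγ
  · intro i
    rw [← contMDiffAt_iff_contDiffAt]
    exact (smooth_w 2 i).contMDiffAt.comp t hγ

theorem mdiff_ff (x : XX q) : MDifferentiableAt (IX q) 𝓘(ℝ, V) (ff Φ s) x :=
  ((smooth_ff Φ s 1).mdifferentiable one_ne_zero) x

/-- The differential is injective. -/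
theorem injective_ff (hs : 0 < s) (x : XX q) :
    Function.Injective (mvfderiv (IX q) (ff Φ s) x) := by
  rw [injective_iff_map_eq_zero]
  intro v hv
  have h1 := deriv_chartLine (IX q) x (ff Φ s) (mdiff_ff Φ s x) v
  rw [hv] at h1
  have h2 := curve_smooth (contMDiffAt_chartLine (IX q) 2 x v)
  have h3 := stationary Φ s (A := fun r => cA (chartLine (IX q) x v r))
    (w := fun r => cW (chartLine (IX q) x v r)) hs (fun t i => cA_norm _ _) (fun t => cW_sum _)
    (t := 0) (fun i => (h2.1 i).differentiableAt two_ne_zero)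
    (fun i => (h2.2 i).differentiableAt two_ne_zero) h1.deriv
  let v1 : Fin (q + 1) → EuclideanSpace ℝ (Fin 1) := (v : EE q).1
  let v2 : EuclideanSpace ℝ (Fin q) := (v : EE q).2
  have hv1 : v1 = 0 := by
    funext i
    have h4 : ContMDiff (𝓡 1) 𝓘(ℝ, ℂ) 1 (fun z : Circle => (z : ℂ)) := contMDiff_coe_sphere
    have h5 := deriv_chartLine (𝓡 1) (x.1 i) (fun z : Circle => (z : ℂ))
      (h4.mdifferentiable one_ne_zero _) (v1 i)
    have h6 : HasDerivAt (fun t => ((chartLine (𝓡 1) (x.1 i) (v1 i) t : Circle) : ℂ)) 0 0 := by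
      have h7 := ((h2.1 i).differentiableAt two_ne_zero).hasDerivAt
      rw [(h3 i).1] at h7
      exact h7
    have h8 := h5.unique h6
    have h9 : Function.Injective (mvfderiv (𝓡 1) (fun z : Circle => (z : ℂ)) (x.1 i)) :=
      injective_mvfderiv_subtypeVal_sphere (E := ℂ) (n := 1) (x.1 i)
    exact h9 (h8.trans (map_zero _).symm)
  have hv2 : v2 = 0 := by
    have h4 : ContMDiff (𝓡 q) 𝓘(ℝ, EuclideanSpace ℝ (Fin (q + 1))) 1
      (fun z : Nrm q => (z : EuclideanSpace ℝ (Fin (q + 1)))) := contMDiff_coe_sphere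
    have h5 := deriv_chartLine (𝓡 q) x.2 (fun z : Nrm q => (z : EuclideanSpace ℝ (Fin (q + 1))))
      (h4.mdifferentiable one_ne_zero _) v2
    have h8 : mvfderiv (𝓡 q) (fun z : Nrm q => (z : EuclideanSpace ℝ (Fin (q + 1)))) x.2 v2 = 0 := by
      ext i
      have h6 := ((EuclideanSpace.proj (𝕜 := ℝ) i).hasFDerivAt
        (x := ((chartLine (𝓡 q) x.2 v2 0 : Nrm q) : EuclideanSpace ℝ (Fin (q + 1))))).comp_hasDerivAt
          0 h5
      have h7 := ((h2.2 i).differentiableAt two_ne_zero).hasDerivAt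
      rw [(h3 i).2] at h7
      exact h6.unique h7
    have h9 := injective_mvfderiv_subtypeVal_sphere (n := q) x.2
    exact h9 (h8.trans (map_zero _).symm)
  exact Prod.ext hv1 hv2

/-- The unit normal field. -/
def NN (x : XX q) : V := nor Φ (cA x) (cW x)

theorem norm_NN (x : XX q) : ‖NN Φ x‖ = 1 := by
  have h1 : ‖NN Φ x‖ ^ 2 = 1 := by
    unfold NN nor
    rw [norm_lp, ← cW_sum x]
    refine Finset.sum_congr rfl fun i _ => ?_
    rw [real_inner_smul_left, real_inner_smul_right, real_inner_self_eq_norm_sq, cA_norm]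
    ring
  nlinarith [norm_nonneg (NN Φ x)]

theorem inner_mvfderiv_NN (x : XX q) (v : TangentSpace (IX q) x) :
    ⟪mvfderiv (IX q) (ff Φ s) x v, NN Φ x⟫ = 0 := by
  have h1 := deriv_chartLine (IX q) x (ff Φ s) (mdiff_ff Φ s x) v
  have h2 := curve_smooth (contMDiffAt_chartLine (IX q) 2 x v)
  have h3 := inner_tube_nor Φ s (A := fun r => cA (chartLine (IX q) x v r))
    (w := fun r => cW (chartLine (IX q) x v r)) (fun t i => cA_norm _ _) (fun t => cW_sum _)
    (t := 0) (fun i => (h2.1 i).differentiableAt two_ne_zero)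
    (fun i => (h2.2 i).differentiableAt two_ne_zero)
  have h4 : deriv (fun r => tube Φ s (cA (chartLine (IX q) x v r)) (cW (chartLine (IX q) x v r))) 0 =
      mvfderiv (IX q) (ff Φ s) x v := h1.deriv
  rw [h4] at h3
  have h5 : nor Φ (cA (chartLine (IX q) x v 0)) (cW (chartLine (IX q) x v 0)) = NN Φ x := by
    have h0 : chartLine (IX q) x v 0 = x := chartLine_zero (IX q) x v
    exact congrArg (fun y => nor Φ (cA y) (cW y)) h0
  rw [h5] at h3
  exact h3

theorem NN_mem (x : XX q) : NN Φ x ∈ (tangentImage (IX q) (ff Φ s) x)ᗮ := by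
  rw [Submodule.mem_orthogonal]
  rintro _ ⟨v, rfl⟩
  exact inner_mvfderiv_NN Φ s x v

theorem finrank_V (Φ : Cn (q + 1) ≃ₗᵢ[ℝ] V) : Module.finrank ℝ V = 2 * q + 2 := by
  rw [← Φ.toLinearEquiv.finrank_eq, (WithLp.linearEquiv 2 ℝ (Fin (q + 1) → ℂ)).finrank_eq,
    Module.finrank_pi_fintype]
  simp
  ring

variable [FiniteDimensional ℝ V]

theorem mem_orth (hs : 0 < s) (x : XX q) {z : V} (hz : z ∈ (tangentImage (IX q) (ff Φ s) x)ᗮ) :
    z = ⟪NN Φ x, z⟫ • NN Φ x := by
  have h1 : Module.finrank ℝ (tangentImage (IX q) (ff Φ s) x) = 2 * q + 1 := by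
    unfold tangentImage
    rw [LinearMap.finrank_range_of_inj (injective_ff Φ s hs x)]
    exact finrank_EE q
  have h2 := (tangentImage (IX q) (ff Φ s) x).finrank_add_finrank_orthogonal
  rw [h1, finrank_V Φ] at h2
  have h3 : Module.finrank ℝ (tangentImage (IX q) (ff Φ s) x)ᗮ = 1 := by omega
  have hN := norm_NN Φ x
  have hN0 : (⟨NN Φ x, NN_mem Φ s x⟩ : (tangentImage (IX q) (ff Φ s) x)ᗮ) ≠ 0 := by
    intro h
    have h4 : NN Φ x = 0 := congrArg Subtype.val h
    rw [h4, norm_zero] at hN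
    norm_num at hN
  obtain ⟨c, hc⟩ := (finrank_eq_one_iff_of_nonzero' _ hN0).1 h3 ⟨z, hz⟩
  have hc' : c • NN Φ x = z := congrArg Subtype.val hc
  rw [← hc', real_inner_smul_right, real_inner_self_eq_norm_sq, hN]
  simp

theorem norm_proj (hs : 0 < s) (x : XX q) (u : V) :
    ‖(tangentImage (IX q) (ff Φ s) x)ᗮ.starProjection u‖ = |⟪u, NN Φ x⟫| := by
  have h1 : (tangentImage (IX q) (ff Φ s) x)ᗮ.starProjection u ∈
      (tangentImage (IX q) (ff Φ s) x)ᗮ := Submodule.starProjection_apply_mem _ _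
  have h2 := mem_orth Φ s hs x h1
  have h3 : ⟪NN Φ x, (tangentImage (IX q) (ff Φ s) x)ᗮ.starProjection u⟫ = ⟪NN Φ x, u⟫ := by
    rw [← Submodule.inner_starProjection_left_eq_right,
      Submodule.starProjection_eq_self_iff.2 (NN_mem Φ s x)]
  rw [h2, norm_smul, norm_NN, mul_one, h3, Real.norm_eq_abs, real_inner_comm]

theorem curvII_ff (hs : 0 < s) : curvII (IX q) (ff Φ s) ≤ ENNReal.ofReal (2 / s) := by
  unfold curvII
  refine iSup_le fun x => iSup_le fun v => iSup_le fun hv => ?_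
  rw [← ofReal_norm]
  apply ENNReal.ofReal_le_ofReal
  unfold secondForm
  rw [norm_proj Φ s hs]
  have h1 := deriv_chartLine (IX q) x (ff Φ s) (mdiff_ff Φ s x) v
  have h2 := curve_smooth (contMDiffAt_chartLine (IX q) 2 x v)
  have h3 := curvature_bound Φ s (A := fun r => cA (chartLine (IX q) x v r))
    (w := fun r => cW (chartLine (IX q) x v r)) hs (fun t i => cA_norm _ _) (fun t => cW_sum _)
    (t := 0) h2.1 h2.2
  have h4 : deriv (fun r => tube Φ s (cA (chartLine (IX q) x v r)) (cW (chartLine (IX q) x v r))) 0 =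
      mvfderiv (IX q) (ff Φ s) x v := h1.deriv
  have h5 : nor Φ (cA (chartLine (IX q) x v 0)) (cW (chartLine (IX q) x v 0)) = NN Φ x := by
    have h0 : chartLine (IX q) x v 0 = x := chartLine_zero (IX q) x v
    exact congrArg (fun y => nor Φ (cA y) (cW y)) h0
  rw [h4, h5, hv, one_pow, mul_one] at h3
  exact h3

theorem curvGeod_ff (hs : 0 < s) : curvGeod (IX q) (ff Φ s) ≤ ENNReal.ofReal (2 / s) := by
  unfold curvGeod
  refine iSup_le fun γ => iSup_le fun hγ => iSup_le fun t => ?_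
  rw [← ofReal_norm]
  apply ENNReal.ofReal_le_ofReal
  have h2 := curve_smooth (hγ.smooth.contMDiffAt (x := t))
  have h3 := curvature_bound Φ s (A := fun r => cA (γ r))
    (w := fun r => cW (γ r)) hs (fun t i => cA_norm _ _) (fun t => cW_sum _)
    (t := t) h2.1 h2.2
  have h4 : deriv (fun r => tube Φ s (cA (γ r)) (cW (γ r))) t = deriv (fun r => ff Φ s (γ r)) t :=
    rfl
  have h6 : iteratedDeriv 2 (fun r => tube Φ s (cA (γ r)) (cW (γ r))) t =
    iteratedDeriv 2 (fun r => ff Φ s (γ r)) t := rfl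
  have h5 : nor Φ (cA (γ t)) (cW (γ t)) = NN Φ (γ t) := rfl
  rw [h4, h5, h6, hγ.unit t, one_pow, mul_one] at h3
  have h7 : iteratedDeriv 2 (fun r => ff Φ s (γ r)) t ∈ (tangentImage (IX q) (ff Φ s) (γ t))ᗮ := by
    rw [Submodule.mem_orthogonal']
    exact hγ.normal t
  have h8 := mem_orth Φ s hs (γ t) h7
  rw [h8, norm_smul, norm_NN, mul_one, Real.norm_eq_abs, real_inner_comm]
  exact h3

omit [FiniteDimensional ℝ V] in
theorem norm_ff_le (hs : s = 1 / (√((q : ℝ) + 1) + 1 / 2)) (x : XX q) : ‖ff Φ s x‖ ≤ 1 := by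
  have h0 : 0 ≤ √((q : ℝ) + 1) := Real.sqrt_nonneg _
  have hs0 : 0 < s := by rw [hs]; positivity
  have h1 : ‖ff Φ s x‖ ^ 2 = s ^ 2 * ∑ i, (1 + cW x i / 2) ^ 2 := by
    unfold ff tube
    rw [norm_lp, Finset.mul_sum]
    refine Finset.sum_congr rfl fun i _ => ?_
    rw [real_inner_smul_left, real_inner_smul_right, real_inner_self_eq_norm_sq, cA_norm]
    ring
  have h2 : ∑ i, (1 + cW x i / 2) ^ 2 = (q + 1) + ∑ i, cW x i + 1 / 4 := by
    have h3 : ∀ i, (1 + cW x i / 2) ^ 2 = 1 + cW x i + (1 / 4) * cW x i ^ 2 := fun i => by ring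
    rw [Finset.sum_congr rfl fun i _ => h3 i, Finset.sum_add_distrib, Finset.sum_add_distrib,
      ← Finset.mul_sum, cW_sum]
    simp
  have h4 : (∑ i, cW x i) ^ 2 ≤ (q + 1 : ℝ) := by
    have := sq_sum_le_card_mul_sum_sq (s := (Finset.univ : Finset (Fin (q + 1)))) (f := cW x)
    rw [cW_sum] at this
    simpa using this
  have h5 : ∑ i, cW x i ≤ √((q : ℝ) + 1) := Real.le_sqrt_of_sq_le h4
  have h6 : √((q : ℝ) + 1) ^ 2 = (q : ℝ) + 1 := Real.sq_sqrt (by positivity)
  have h7 : ‖ff Φ s x‖ ^ 2 ≤ 1 := by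
    rw [h1, h2]
    have h8 : (q + 1 : ℝ) + ∑ i, cW x i + 1 / 4 ≤ (√((q : ℝ) + 1) + 1 / 2) ^ 2 := by
      nlinarith
    have h9 : s ^ 2 * (√((q : ℝ) + 1) + 1 / 2) ^ 2 = 1 := by
      rw [← mul_pow, hs, one_div_mul_cancel (by positivity), one_pow]
    calc s ^ 2 * ((q + 1 : ℝ) + ∑ i, cW x i + 1 / 4) ≤ s ^ 2 * (√((q : ℝ) + 1) + 1 / 2) ^ 2 :=
          mul_le_mul_of_nonneg_left h8 (sq_nonneg s)
      _ = 1 := h9
  nlinarith [norm_nonneg (ff Φ s x)]

omit [FiniteDimensional ℝ V] in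
/-- The map is injective, so that it is an embedding. -/
theorem ff_injective (hs : 0 < s) : Function.Injective (ff Φ s : XX q → V) := by
  intro x y hxy
  have h1 : (fun i => (s * (1 + cW x i / 2)) • cA x i) = fun i => (s * (1 + cW y i / 2)) • cA y i :=
    (WithLp.toLp_injective 2) (Φ.injective hxy)
  have hb : ∀ (z : XX q) i, 0 < s * (1 + cW z i / 2) := by
    intro z i
    have h5 : cW z i ^ 2 ≤ ∑ j, cW z j ^ 2 :=
      Finset.single_le_sum (f := fun j => cW z j ^ 2) (fun j _ => sq_nonneg _) (Finset.mem_univ i)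
    rw [cW_sum] at h5
    have h6 : |cW z i| ≤ 1 := abs_le_one_iff_mul_self_le_one.2 (by nlinarith)
    have h7 := (abs_le.1 h6).1
    have : 0 < 1 + cW z i / 2 := by linarith
    positivity
  have h2 : ∀ i, cW x i = cW y i := by
    intro i
    have h3 := congrArg norm (congrFun h1 i)
    simp only [norm_smul, cA_norm, mul_one, Real.norm_eq_abs, abs_of_pos (hb _ _)] at h3
    have h4 := mul_left_cancel₀ hs.ne' h3
    linarith
  have h3 : ∀ i, cA x i = cA y i := by
    intro i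
    have h4 := congrFun h1 i
    simp only [h2 i] at h4
    exact smul_right_injective _ (hb y i).ne' h4
  refine Prod.ext ?_ ?_
  · funext i
    exact Circle.ext (h3 i)
  · apply Subtype.ext
    ext i
    exact h2 i

end

end Pool.Agent.H370R3.CL
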