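import Mathlib

/-!
The explicit equivariant map from the (suspended) disc to the (suspended) mapping cylinder.
-/

namespace Pool.Agent.H370R3.Psi

/-- clamp to `[-1,1]` -/
noncomputable def cl (r : ℝ) : ℝ := max (-1) (min 1 r)

theorem cl_cont : Continuous cl := by unfold cl; fun_prop

theorem cl_of_ge {r : ℝ} (h : 1 ≤ r) : cl r = 1 := by
  unfold cl; rw [min_eq_left h]; norm_num

theorem cl_of_le {r : ℝ} (h : r ≤ -1) : cl r = -1 := by
  unfold cl; rw [min_eq_right (by linarith), max_eq_left h]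

theorem cl_of_mem {r : ℝ} (h1 : -1 ≤ r) (h2 : r ≤ 1) : cl r = r := by
  unfold cl; rw [min_eq_right h2, max_eq_right h1]

theorem cl_neg (r : ℝ) : cl (-r) = - cl r := by
  rcases le_total 1 r with h | h
  · rw [cl_of_ge h, cl_of_le (by linarith)]
  · rcases le_total r (-1) with h' | h'
    · rw [cl_of_le h', cl_of_ge (by linarith)]; norm_num
    · rw [cl_of_mem h' h, cl_of_mem (by linarith) (by linarith)]

theorem cl_abs_le (r : ℝ) : |cl r| ≤ 1 := by
  unfold cl
  rw [abs_le]
  exact ⟨le_max_left _ _, max_le (by norm_num) (min_le_left _ _)⟩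

theorem cl_lip (r s : ℝ) : |cl r - cl s| ≤ |r - s| := by
  unfold cl
  have h1 := abs_max_sub_max_le_abs (min 1 r) (min 1 s) (-1)
  have h2 := abs_min_sub_min_le_max 1 r 1 s
  rw [max_comm (-1) (min 1 r), max_comm (-1) (min 1 s)]
  refine h1.trans (h2.trans ?_)
  simp

noncomputable def q₁ (w : ℂ) : ℝ := 1 + 3 * (w.re - w.im)

noncomputable def q₂ (w : ℂ) : ℝ := 1 + 3 * (w.re + w.im)

theorem q₁_cont : Continuous q₁ := by unfold q₁; fun_prop

theorem q₂_cont : Continuous q₂ := by unfold q₂; fun_prop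

noncomputable def al (q : ℝ) : ℂ := -Complex.exp (((Real.pi * cl q : ℝ) : ℂ) * Complex.I)

theorem al_cont : Continuous al := by
  unfold al
  have := cl_cont
  fun_prop

theorem al_norm (q : ℝ) : ‖al q‖ = 1 := by
  unfold al
  rw [norm_neg, Complex.norm_exp_ofReal_mul_I]

theorem al_one {q : ℝ} (h : 1 ≤ |q|) : al q = 1 := by
  unfold al
  rcases le_abs.mp h with h | h
  · rw [cl_of_ge h, mul_one, Complex.exp_pi_mul_I, neg_neg]
  · rw [cl_of_le (by linarith), mul_neg, mul_one, Complex.ofReal_neg, neg_mul, Complex.exp_neg,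
      Complex.exp_pi_mul_I]
    norm_num

theorem abs_lt_of_al {q : ℝ} (h : al q ≠ 1) : |q| < 1 := by
  by_contra hc
  exact h (al_one (not_lt.mp hc))

noncomputable def sq (x : ℂ) : ℂ := x ^ 2 / (((max 1 ‖x‖ : ℝ) : ℂ)) ^ 2

theorem sq_cont : Continuous sq := by
  unfold sq
  refine Continuous.div (by fun_prop) (by fun_prop) (fun x => ?_)
  have : (0 : ℝ) < max 1 ‖x‖ := lt_of_lt_of_le one_pos (le_max_left _ _)
  exact pow_ne_zero 2 (by exact_mod_cast this.ne')

theorem sq_neg (x : ℂ) : sq (-x) = sq x := by simp [sq]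

theorem sq_of_im_zero {x : ℂ} (h : x.im = 0) : (sq x).im = 0 ∧ 0 ≤ (sq x).re := by
  have hx : x = ((x.re : ℝ) : ℂ) := Complex.ext (by simp) (by simp [h])
  have : sq x = ((x.re ^ 2 / (max 1 ‖x‖) ^ 2 : ℝ) : ℂ) := by
    unfold sq
    push_cast
    rw [← hx]
  rw [this]
  exact ⟨Complex.ofReal_im _, by rw [Complex.ofReal_re]; positivity⟩

theorem al_of_im_zero {x : ℂ} (h : x.im = 0) : al (q₁ (sq x)) = 1 ∧ al (q₂ (sq x)) = 1 := by
  obtain ⟨h1, h2⟩ := sq_of_im_zero h
  constructor
  · apply al_one; unfold q₁; rw [h1]; rw [le_abs]; left; linarith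
  · apply al_one; unfold q₂; rw [h1]; rw [le_abs]; left; linarith

noncomputable def lam (q : ℝ) : ℝ := min 1 (max 0 (|q| - 1))

theorem lam_cont : Continuous lam := by unfold lam; fun_prop

theorem lam_nonneg (q : ℝ) : 0 ≤ lam q := le_min zero_le_one (le_max_left _ _)

theorem lam_le (q : ℝ) : lam q ≤ 1 := min_le_left _ _

theorem lam_zero {q : ℝ} (h : |q| ≤ 1) : lam q = 0 := by
  unfold lam
  rw [max_eq_left (by linarith), min_eq_right zero_le_one]

theorem lam_one {q : ℝ} (h : 2 ≤ |q|) : lam q = 1 := by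
  unfold lam
  rw [max_eq_right (by linarith), min_eq_left (by linarith)]

noncomputable def mu (x : ℂ) : ℝ :=
  if 0 ≤ x.im then lam (q₂ (sq x)) - lam (q₁ (sq x)) else lam (q₁ (sq x)) - lam (q₂ (sq x))

theorem lam_eq {x : ℂ} (h : x.im = 0) : lam (q₁ (sq x)) = lam (q₂ (sq x)) := by
  obtain ⟨h1, -⟩ := sq_of_im_zero h
  unfold q₁ q₂; rw [h1]; simp

theorem mu_cont : Continuous mu := by
  have h1 : Continuous (fun x => lam (q₁ (sq x))) := lam_cont.comp (q₁_cont.comp sq_cont)
  have h2 : Continuous (fun x => lam (q₂ (sq x))) := lam_cont.comp (q₂_cont.comp sq_cont)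
  unfold mu
  refine Continuous.if_le (h2.sub h1) (h1.sub h2) continuous_const (by fun_prop) ?_
  intro x hx
  rw [lam_eq hx.symm]

theorem mu_neg (x : ℂ) : mu (-x) = - mu x := by
  unfold mu
  rw [sq_neg, Complex.neg_im]
  rcases lt_trichotomy x.im 0 with h | h | h
  · rw [if_pos (by linarith), if_neg (by linarith)]; ring
  · rw [if_pos (by linarith), if_pos (by linarith), lam_eq h]; ring
  · rw [if_neg (by linarith), if_pos (by linarith)]; ring

theorem mu_abs_le (x : ℂ) : |mu x| ≤ 1 := by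
  have h1 := lam_nonneg (q₁ (sq x)); have h2 := lam_nonneg (q₂ (sq x))
  have h3 := lam_le (q₁ (sq x)); have h4 := lam_le (q₂ (sq x))
  unfold mu
  rw [abs_le]
  split_ifs <;> constructor <;> linarith

noncomputable def s (x : ℂ) (t : ℝ) : ℝ :=
  cl (t + 2) * (1 - max 0 (-mu x)) + cl (t - 2) * (1 - max 0 (mu x)) - cl t * (1 - |mu x|)

noncomputable def T (x : ℂ) (t : ℝ) : ℝ := 3 * s x t

theorem s_cont : Continuous (fun p : ℂ × ℝ => s p.1 p.2) := by
  unfold s
  have h1 := cl_cont
  have h2 := mu_cont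
  fun_prop

theorem T_cont : Continuous (fun p : ℂ × ℝ => T p.1 p.2) := by
  unfold T
  exact continuous_const.mul s_cont

theorem s_neg (x : ℂ) (t : ℝ) : s (-x) (-t) = - s x t := by
  unfold s
  have e1 : -t + 2 = -(t - 2) := by ring
  have e2 : -t - 2 = -(t + 2) := by ring
  rw [mu_neg, e1, e2, cl_neg, cl_neg, cl_neg, neg_neg, abs_neg]
  ring

theorem T_neg (x : ℂ) (t : ℝ) : T (-x) (-t) = - T x t := by
  unfold T; rw [s_neg]; ring

theorem max_add_max (m : ℝ) : max 0 m + max 0 (-m) = |m| := by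
  rcases le_total 0 m with h | h
  · rw [max_eq_right h, max_eq_left (by linarith), abs_of_nonneg h]; ring
  · rw [max_eq_left h, max_eq_right (by linarith), abs_of_nonpos h]; ring

theorem T_of_ge (x : ℂ) {t : ℝ} (h : 3 ≤ t) : T x t = 3 := by
  unfold T s
  rw [cl_of_ge (by linarith), cl_of_ge (by linarith), cl_of_ge (by linarith)]
  have := max_add_max (mu x)
  linarith

theorem T_of_le (x : ℂ) {t : ℝ} (h : t ≤ -3) : T x t = -3 := by
  unfold T s
  rw [cl_of_le (by linarith), cl_of_le (by linarith), cl_of_le (by linarith)]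
  have := max_add_max (mu x)
  linarith

theorem abs_lt_of_T {x : ℂ} {t : ℝ} (h : |T x t| < 3) : |t| < 3 := by
  by_contra hc
  rcases le_abs.mp (not_lt.mp hc) with h' | h'
  · rw [T_of_ge x h'] at h; norm_num at h
  · rw [T_of_le x (by linarith)] at h; norm_num at h

theorem s_lt_of_T {x : ℂ} {t : ℝ} (h : |T x t| < 3) : |s x t| < 1 := by
  unfold T at h
  rw [abs_mul, abs_of_pos (by norm_num : (0:ℝ) < 3)] at h
  linarith

def act₁ (x : ℂ) (t : ℝ) : Prop := (0 ≤ x.im ∧ t < -1) ∨ (x.im < 0 ∧ 1 < t)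

def act₂ (x : ℂ) (t : ℝ) : Prop := (0 ≤ x.im ∧ 1 < t) ∨ (x.im < 0 ∧ t < -1)

open Classical in
noncomputable def A (x : ℂ) (t : ℝ) : ℂ := if act₁ x t then al (q₁ (sq x)) else 1

open Classical in
noncomputable def B (x : ℂ) (t : ℝ) : ℂ := if act₂ x t then al (q₂ (sq x)) else 1

theorem A_neg (x : ℂ) (t : ℝ) : A (-x) (-t) = A x t := by
  unfold A
  rw [sq_neg]
  by_cases h : x.im = 0
  · rw [(al_of_im_zero h).1]; simp
  · have : act₁ (-x) (-t) ↔ act₁ x t := by
      unfold act₁
      rw [Complex.neg_im]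
      constructor
      · rintro (⟨h1, h2⟩ | ⟨h1, h2⟩)
        · right; exact ⟨lt_of_le_of_ne (by linarith) h, by linarith⟩
        · left; exact ⟨by linarith, by linarith⟩
      · rintro (⟨h1, h2⟩ | ⟨h1, h2⟩)
        · right; exact ⟨by have := lt_of_le_of_ne h1 (Ne.symm h); linarith, by linarith⟩
        · left; exact ⟨by linarith, by linarith⟩
    by_cases h' : act₁ x t
    · rw [if_pos (this.mpr h'), if_pos h']
    · rw [if_neg (mt this.mp h'), if_neg h']

theorem B_neg (x : ℂ) (t : ℝ) : B (-x) (-t) = B x t := by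
  unfold B
  rw [sq_neg]
  by_cases h : x.im = 0
  · rw [(al_of_im_zero h).2]; simp
  · have : act₂ (-x) (-t) ↔ act₂ x t := by
      unfold act₂
      rw [Complex.neg_im]
      constructor
      · rintro (⟨h1, h2⟩ | ⟨h1, h2⟩)
        · right; exact ⟨lt_of_le_of_ne (by linarith) h, by linarith⟩
        · left; exact ⟨by linarith, by linarith⟩
      · rintro (⟨h1, h2⟩ | ⟨h1, h2⟩)
        · right; exact ⟨by have := lt_of_le_of_ne h1 (Ne.symm h); linarith, by linarith⟩
        · left; exact ⟨by linarith, by linarith⟩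
    by_cases h' : act₂ x t
    · rw [if_pos (this.mpr h'), if_pos h']
    · rw [if_neg (mt this.mp h'), if_neg h']

theorem A_norm (x : ℂ) (t : ℝ) : ‖A x t‖ = 1 := by
  unfold A; split_ifs
  · exact al_norm _
  · simp

theorem B_norm (x : ℂ) (t : ℝ) : ‖B x t‖ = 1 := by
  unfold B; split_ifs
  · exact al_norm _
  · simp

theorem A_or_B (x : ℂ) (t : ℝ) : A x t = 1 ∨ B x t = 1 := by
  by_cases h : act₁ x t
  · right
    have : ¬ act₂ x t := by
      unfold act₁ at h
      unfold act₂
      rintro (⟨h1, h2⟩ | ⟨h1, h2⟩) <;> rcases h with ⟨h3, h4⟩ | ⟨h3, h4⟩ <;> linarith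
    simp [B, this]
  · left; simp [A, h]

/-- values of `s` at the jump times -/
theorem s_neg_one (x : ℂ) : s x (-1) = 1 + max 0 (mu x) - max 0 (-mu x) + max 0 (-mu x)
    - |mu x| + (max 0 (mu x) - max 0 (mu x)) - 0 + 0 - max 0 (-mu x) := by
  unfold s
  rw [cl_of_ge (by norm_num : (1:ℝ) ≤ -1 + 2), cl_of_le (by norm_num : (-1:ℝ) - 2 ≤ -1),
    cl_of_le (le_refl (-1 : ℝ))]
  ring

theorem s_at_neg_one {x : ℂ} (h : 0 ≤ mu x) : s x (-1) = 1 := by
  rw [s_neg_one, max_eq_right h, max_eq_left (by linarith), abs_of_nonneg h]; ring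

theorem s_at_one {x : ℂ} (h : mu x ≤ 0) : s x 1 = -1 := by
  have := s_neg (-x) (-1)
  rw [neg_neg, neg_neg] at this
  rw [this, s_at_neg_one]
  rw [mu_neg]; linarith

theorem A_jump {x : ℂ} {t : ℝ} (hs : |s x t| < 1) :
    al (q₁ (sq x)) = 1 ∨ (0 < x.im ∧ t ≠ -1) ∨ (x.im < 0 ∧ t ≠ 1) := by
  by_contra hc
  push Not at hc
  obtain ⟨h1, h2, h3⟩ := hc
  have hq := abs_lt_of_al h1
  have hl := lam_zero hq.le
  have hi : x.im ≠ 0 := fun h => h1 (al_of_im_zero h).1
  rcases lt_or_gt_of_ne hi with h | h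
  · have ht := h3 h
    have hm : mu x ≤ 0 := by
      unfold mu; rw [if_neg (by linarith), hl]; have := lam_nonneg (q₂ (sq x)); linarith
    rw [ht, s_at_one hm] at hs
    norm_num at hs
  · have ht := h2 h
    have hm : 0 ≤ mu x := by
      unfold mu; rw [if_pos h.le, hl]; have := lam_nonneg (q₂ (sq x)); linarith
    rw [ht, s_at_neg_one hm] at hs
    norm_num at hs

theorem B_jump {x : ℂ} {t : ℝ} (hs : |s x t| < 1) :
    al (q₂ (sq x)) = 1 ∨ (0 < x.im ∧ t ≠ 1) ∨ (x.im < 0 ∧ t ≠ -1) := by
  by_contra hc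
  push Not at hc
  obtain ⟨h1, h2, h3⟩ := hc
  have hq := abs_lt_of_al h1
  have hl := lam_zero hq.le
  have hi : x.im ≠ 0 := fun h => h1 (al_of_im_zero h).2
  rcases lt_or_gt_of_ne hi with h | h
  · have ht := h3 h
    have hm : 0 ≤ mu x := by
      unfold mu; rw [if_neg (by linarith), hl]; have := lam_nonneg (q₁ (sq x)); linarith
    rw [ht, s_at_neg_one hm] at hs
    norm_num at hs
  · have ht := h2 h
    have hm : mu x ≤ 0 := by
      unfold mu; rw [if_pos h.le, hl]; have := lam_nonneg (q₁ (sq x)); linarith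
    rw [ht, s_at_one hm] at hs
    norm_num at hs

open Filter Topology

theorem A_contAt {x : ℂ} {t : ℝ} (hs : |s x t| < 1) :
    ContinuousAt (fun p : ℂ × ℝ => A p.1 p.2) (x, t) := by
  classical
  have hcont : Continuous (fun p : ℂ × ℝ => al (q₁ (sq p.1))) :=
    al_cont.comp (q₁_cont.comp (sq_cont.comp continuous_fst))
  have him : Continuous (fun p : ℂ × ℝ => p.1.im) := by fun_prop
  have hst : Continuous (fun p : ℂ × ℝ => p.2) := by fun_prop
  rcases A_jump hs with h | ⟨h, h'⟩ | ⟨h, h'⟩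
  · have hA : A x t = 1 := by unfold A; rw [h]; simp
    rw [ContinuousAt, hA, tendsto_iff_norm_sub_tendsto_zero]
    have h1 : Tendsto (fun p : ℂ × ℝ => ‖al (q₁ (sq p.1)) - 1‖) (𝓝 (x, t)) (𝓝 0) := by
      have := (hcont.sub (continuous_const (y := (1:ℂ)))).norm.tendsto (x, t)
      simpa [h] using this
    refine squeeze_zero (fun p => norm_nonneg _) (fun p => ?_) h1
    unfold A
    split_ifs
    · exact le_rfl
    · simp
  · rcases lt_or_gt_of_ne h' with h2 | h2
    · refine hcont.continuousAt.congr ?_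
      filter_upwards [him.continuousAt.eventually (lt_mem_nhds h),
        hst.continuousAt.eventually (gt_mem_nhds h2)] with p hp1 hp2
      have : act₁ p.1 p.2 := Or.inl ⟨le_of_lt hp1, hp2⟩
      simp [A, this]
    · refine (continuousAt_const (y := (1:ℂ))).congr ?_
      filter_upwards [him.continuousAt.eventually (lt_mem_nhds h),
        hst.continuousAt.eventually (lt_mem_nhds h2)] with p hp1 hp2
      have : ¬ act₁ p.1 p.2 := by
        rintro (⟨a, b⟩ | ⟨a, b⟩) <;> linarith
      simp [A, this]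
  · rcases lt_or_gt_of_ne h' with h2 | h2
    · refine (continuousAt_const (y := (1:ℂ))).congr ?_
      filter_upwards [him.continuousAt.eventually (gt_mem_nhds h),
        hst.continuousAt.eventually (gt_mem_nhds h2)] with p hp1 hp2
      have : ¬ act₁ p.1 p.2 := by
        rintro (⟨a, b⟩ | ⟨a, b⟩) <;> linarith
      simp [A, this]
    · refine hcont.continuousAt.congr ?_
      filter_upwards [him.continuousAt.eventually (gt_mem_nhds h),
        hst.continuousAt.eventually (lt_mem_nhds h2)] with p hp1 hp2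
      have : act₁ p.1 p.2 := Or.inr ⟨hp1, hp2⟩
      simp [A, this]

theorem B_contAt {x : ℂ} {t : ℝ} (hs : |s x t| < 1) :
    ContinuousAt (fun p : ℂ × ℝ => B p.1 p.2) (x, t) := by
  classical
  have hcont : Continuous (fun p : ℂ × ℝ => al (q₂ (sq p.1))) :=
    al_cont.comp (q₂_cont.comp (sq_cont.comp continuous_fst))
  have him : Continuous (fun p : ℂ × ℝ => p.1.im) := by fun_prop
  have hst : Continuous (fun p : ℂ × ℝ => p.2) := by fun_prop
  rcases B_jump hs with h | ⟨h, h'⟩ | ⟨h, h'⟩
  · have hB : B x t = 1 := by unfold B; rw [h]; simp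
    rw [ContinuousAt, hB, tendsto_iff_norm_sub_tendsto_zero]
    have h1 : Tendsto (fun p : ℂ × ℝ => ‖al (q₂ (sq p.1)) - 1‖) (𝓝 (x, t)) (𝓝 0) := by
      have := (hcont.sub (continuous_const (y := (1:ℂ)))).norm.tendsto (x, t)
      simpa [h] using this
    refine squeeze_zero (fun p => norm_nonneg _) (fun p => ?_) h1
    unfold B
    split_ifs
    · exact le_rfl
    · simp
  · rcases lt_or_gt_of_ne h' with h2 | h2
    · refine (continuousAt_const (y := (1:ℂ))).congr ?_
      filter_upwards [him.continuousAt.eventually (lt_mem_nhds h),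
        hst.continuousAt.eventually (gt_mem_nhds h2)] with p hp1 hp2
      have : ¬ act₂ p.1 p.2 := by
        rintro (⟨a, b⟩ | ⟨a, b⟩) <;> linarith
      simp [B, this]
    · refine hcont.continuousAt.congr ?_
      filter_upwards [him.continuousAt.eventually (lt_mem_nhds h),
        hst.continuousAt.eventually (lt_mem_nhds h2)] with p hp1 hp2
      have : act₂ p.1 p.2 := Or.inl ⟨le_of_lt hp1, hp2⟩
      simp [B, this]
  · rcases lt_or_gt_of_ne h' with h2 | h2
    · refine hcont.continuousAt.congr ?_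
      filter_upwards [him.continuousAt.eventually (gt_mem_nhds h),
        hst.continuousAt.eventually (gt_mem_nhds h2)] with p hp1 hp2
      have : act₂ p.1 p.2 := Or.inr ⟨hp1, hp2⟩
      simp [B, this]
    · refine (continuousAt_const (y := (1:ℂ))).congr ?_
      filter_upwards [him.continuousAt.eventually (gt_mem_nhds h),
        hst.continuousAt.eventually (lt_mem_nhds h2)] with p hp1 hp2
      have : ¬ act₂ p.1 p.2 := by
        rintro (⟨a, b⟩ | ⟨a, b⟩) <;> linarith
      simp [B, this]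

noncomputable def Y (x : ℂ) : ℂ := ((max 0 (‖x‖ - 1) / max 1 ‖x‖ : ℝ) : ℂ) * x

theorem Y_cont : Continuous Y := by
  unfold Y
  refine Continuous.mul (Complex.continuous_ofReal.comp (Continuous.div (by fun_prop)
    (by fun_prop) (fun x => ?_))) continuous_id
  exact (lt_of_lt_of_le one_pos (le_max_left _ _)).ne'

theorem Y_neg (x : ℂ) : Y (-x) = - Y x := by simp [Y]

theorem Y_norm (x : ℂ) : ‖Y x‖ = max 0 (‖x‖ - 1) := by
  unfold Y
  rw [norm_mul, Complex.norm_real, Real.norm_eq_abs]
  have h0 : 0 < max 1 ‖x‖ := lt_of_lt_of_le one_pos (le_max_left _ _)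
  rw [abs_of_nonneg (div_nonneg (le_max_left _ _) h0.le)]
  rcases le_total 1 ‖x‖ with h | h
  · rw [max_eq_right h]
    field_simp
  · rw [max_eq_left (by linarith : ‖x‖ - 1 ≤ 0)]; simp

/-- The space `P`: the mapping cylinder. -/
def P (p : ℂ × ℂ × ℂ) : Prop :=
  ‖p.1‖ ≤ 1 ∧ ((p.2.1 = 1 ∧ ‖p.2.2‖ = 1) ∨ (p.2.2 = 1 ∧ ‖p.2.1‖ = 1)) ∧
  (p.1 ≠ 0 → p.2.1 = al (q₁ ((p.1 / ‖p.1‖) ^ 2)) ∧ p.2.2 = al (q₂ ((p.1 / ‖p.1‖) ^ 2)))

theorem unit_q {u v : ℝ} (h : u ^ 2 + v ^ 2 = 1) (h1 : |1 + 3 * (u - v)| < 1) :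
    2 ≤ |1 + 3 * (u + v)| := by
  rw [abs_lt] at h1
  rw [le_abs]
  obtain ⟨ha, hb⟩ := h1
  by_contra hc
  push Not at hc
  obtain ⟨hc, hd⟩ := hc
  nlinarith

theorem unit_q' {u v : ℝ} (h : u ^ 2 + v ^ 2 = 1) (h1 : |1 + 3 * (u + v)| < 1) :
    2 ≤ |1 + 3 * (u - v)| := by
  have := unit_q (u := u) (v := -v) (by linarith [h, neg_sq v]) (by simpa using h1)
  rwa [← sub_eq_add_neg] at this

theorem psi_mem {x : ℂ} {t : ℝ} (hx : ‖x‖ ≤ 2) (hs : |s x t| < 1) :
    P (Y x, A x t, B x t) := by
  refine ⟨?_, ?_, ?_⟩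
  · simp only; rw [Y_norm]; exact max_le zero_le_one (by linarith)
  · rcases A_or_B x t with h | h
    · left; exact ⟨h, B_norm x t⟩
    · right; exact ⟨h, A_norm x t⟩
  · intro hY
    simp only at hY ⊢
    have hn : 1 < ‖x‖ := by
      by_contra hc
      apply hY
      rw [← norm_eq_zero, Y_norm]
      exact max_eq_left (by linarith)
    have hx0 : ((‖x‖ : ℝ) : ℂ) ≠ 0 := by
      have : ‖x‖ ≠ 0 := by linarith
      exact_mod_cast this
    have hx1 : ((‖x‖ - 1 : ℝ) : ℂ) ≠ 0 := by
      have : ‖x‖ - 1 ≠ 0 := by linarith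
      exact_mod_cast this
    have hsq : (Y x / (‖Y x‖ : ℂ)) ^ 2 = sq x := by
      rw [Y_norm]
      unfold Y sq
      rw [max_eq_right (by linarith : 0 ≤ ‖x‖ - 1), max_eq_right hn.le]
      push_cast at hx1 ⊢
      field_simp
    rw [hsq]
    have hw : (sq x).re ^ 2 + (sq x).im ^ 2 = 1 := by
      have h1 : ‖sq x‖ = 1 := by
        unfold sq
        rw [max_eq_right hn.le, norm_div, norm_pow, norm_pow, Complex.norm_real, norm_norm]
        exact div_self (pow_ne_zero 2 (by linarith))
      have h2 := Complex.sq_norm (sq x)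
      rw [h1, Complex.normSq_apply] at h2
      nlinarith
    constructor
    · by_cases h1 : al (q₁ (sq x)) = 1
      · unfold A; rw [h1]; simp
      · have hq := abs_lt_of_al h1
        have hl1 := lam_zero hq.le
        have hl2 : lam (q₂ (sq x)) = 1 := lam_one (unit_q hw hq)
        have hi : x.im ≠ 0 := fun h => h1 (al_of_im_zero h).1
        have hact : act₁ x t := by
          rcases lt_or_gt_of_ne hi with h | h
          · right
            refine ⟨h, ?_⟩
            have hm : mu x = -1 := by unfold mu; rw [if_neg (by linarith), hl1, hl2]; ring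
            by_contra hc
            have : s x t = -1 := by
              unfold s
              rw [hm, cl_of_le (by linarith : t - 2 ≤ -1)]
              norm_num
            rw [this] at hs
            norm_num at hs
          · left
            refine ⟨h.le, ?_⟩
            have hm : mu x = 1 := by unfold mu; rw [if_pos h.le, hl1, hl2]; ring
            by_contra hc
            have : s x t = 1 := by
              unfold s
              rw [hm, cl_of_ge (by linarith : 1 ≤ t + 2)]
              norm_num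
            rw [this] at hs
            norm_num at hs
        simp [A, hact]
    · by_cases h1 : al (q₂ (sq x)) = 1
      · unfold B; rw [h1]; simp
      · have hq := abs_lt_of_al h1
        have hl1 := lam_zero hq.le
        have hl2 : lam (q₁ (sq x)) = 1 := lam_one (unit_q' hw hq)
        have hi : x.im ≠ 0 := fun h => h1 (al_of_im_zero h).2
        have hact : act₂ x t := by
          rcases lt_or_gt_of_ne hi with h | h
          · right
            refine ⟨h, ?_⟩
            have hm : mu x = 1 := by unfold mu; rw [if_neg (by linarith), hl1, hl2]; ring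
            by_contra hc
            have : s x t = 1 := by
              unfold s
              rw [hm, cl_of_ge (by linarith : 1 ≤ t + 2)]
              norm_num
            rw [this] at hs
            norm_num at hs
          · left
            refine ⟨h.le, ?_⟩
            have hm : mu x = -1 := by unfold mu; rw [if_pos h.le, hl1, hl2]; ring
            by_contra hc
            have : s x t = -1 := by
              unfold s
              rw [hm, cl_of_le (by linarith : t - 2 ≤ -1)]
              norm_num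
            rw [this] at hs
            norm_num at hs
        simp [B, hact]

end Pool.Agent.H370R3.Psi
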