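import Mathlib
import Pool.Agent.Helper325.BorsukUlam

/-!
Two tools on Euclidean spheres: the Borsuk-Ulam theorem in the form used here, and the fact that a
nonvanishing complex function on a sphere of dimension at least two has a continuous argument.
-/

namespace Pool.Agent.H370R3.SphereTools

open Metric

abbrev E (n : ℕ) := EuclideanSpace ℝ (Fin n)

abbrev Sph (n : ℕ) := sphere (0 : E (n + 1)) 1

/-- Borsuk-Ulam: an odd continuous map from the `n`-sphere to `ℝ^m`, `m ≤ n`, has a zero. -/
theorem borsuk_ulam {n m : ℕ} (hmn : m ≤ n) (g : Sph n → (Fin m → ℝ)) (hg : Continuous g)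
    (hodd : ∀ x, g (-x) = - g x) : ∃ x, g x = 0 := by
  classical
  by_contra hcon
  push Not at hcon
  -- extend radially
  have hne : ∀ x : Fin (n + 1) → ℝ, x ≠ 0 → (WithLp.toLp 2 x : E (n + 1)) ≠ 0 := by
    intro x hx h
    apply hx
    have := congrArg WithLp.ofLp h
    simpa using this
  let u : (Fin (n + 1) → ℝ) → E (n + 1) := fun x => WithLp.toLp 2 x
  have hu : Continuous u := by fun_prop
  let r : ∀ x : E (n + 1), x ≠ 0 → Sph n := fun x hx =>
    ⟨(‖x‖)⁻¹ • x, by
      rw [mem_sphere_zero_iff_norm, norm_smul, norm_inv, norm_norm]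
      exact inv_mul_cancel₀ (norm_ne_zero_iff.mpr hx)⟩
  let F : (Fin (n + 1) → ℝ) → (Fin n → ℝ) := fun x =>
    if hx : u x = 0 then 0 else fun i => if hi : (i : ℕ) < m then ‖u x‖ * g (r (u x) hx) ⟨i, hi⟩ else 0
  have hbd : ∃ C : ℝ, ∀ x, ‖g x‖ ≤ C := by
    have : IsCompact (Set.univ : Set (Sph n)) := isCompact_univ
    obtain ⟨C, hC⟩ := this.exists_bound_of_continuousOn (f := g) hg.continuousOn
    exact ⟨C, fun x => hC x trivial⟩
  obtain ⟨C, hC⟩ := hbd
  have hF : Continuous F := by
    rw [continuous_iff_continuousAt]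
    intro x
    by_cases hx : u x = 0
    · have hFx : F x = 0 := by simp [F, hx]
      rw [ContinuousAt, hFx]
      have hb : ∀ y, ‖F y‖ ≤ ‖u y‖ * C := by
        intro y
        by_cases hy : u y = 0
        · simp [F, hy]
        · rw [pi_norm_le_iff_of_nonneg]
          · intro i
            simp only [F, hy, dite_false]
            split_ifs with hi
            · rw [norm_mul, norm_norm]
              exact mul_le_mul_of_nonneg_left ((norm_le_pi_norm _ _).trans (hC _)) (norm_nonneg _)
            · rw [norm_zero]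
              exact mul_nonneg (norm_nonneg _) ((norm_nonneg _).trans (hC (r (u y) hy)))
          · exact mul_nonneg (norm_nonneg _) ((norm_nonneg _).trans (hC (r (u y) hy)))
      apply squeeze_zero_norm hb
      have : Filter.Tendsto (fun y => ‖u y‖ * C) (nhds x) (nhds (‖u x‖ * C)) :=
        (hu.norm.mul continuous_const).tendsto x
      simpa [hx] using this
    · have hopen : IsOpen {y | u y ≠ 0} := isOpen_ne_fun hu continuous_const
      have : ContinuousOn F {y | u y ≠ 0} := by
        rw [continuousOn_iff_continuous_domRestrict]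
        have heq : Set.domRestrict {y | u y ≠ 0} F = fun y : {y | u y ≠ 0} =>
            fun i : Fin n => if hi : (i : ℕ) < m then ‖u y.1‖ * g (r (u y.1) y.2) ⟨i, hi⟩ else 0 := by
          funext y
          have hy : u y.1 ≠ 0 := y.2
          simp only [Set.domRestrict_apply, F, hy, dite_false]
        rw [heq]
        refine continuous_pi fun i => ?_
        by_cases hi : (i : ℕ) < m
        · simp only [hi, dite_true]
          refine Continuous.mul (by fun_prop) ?_
          refine (continuous_apply _).comp (hg.comp ?_)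
          refine Continuous.subtype_mk ?_ _
          have hu' : Continuous (fun y : {y | u y ≠ 0} => u y.1) := hu.comp continuous_subtype_val
          have h3 : Continuous (fun y : {y | u y ≠ 0} => (‖u y.1‖)⁻¹ • u y.1) :=
            (Continuous.inv₀ hu'.norm (fun y => norm_ne_zero_iff.mpr y.2)).smul hu'
          exact h3
        · simp only [hi, dite_false]
          exact continuous_const
      exact this.continuousAt (hopen.mem_nhds hx)
  have hFodd : ∀ x, F (-x) = - F x := by
    intro x
    have hneg : u (-x) = - u x := by simp [u]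
    by_cases hx : u x = 0
    · simp [F, hneg, hx]
    · funext i
      have hx' : ¬ (- u x = 0) := by simpa using hx
      have hr : r (- u x) hx' = - r (u x) hx := by
        apply Subtype.ext
        simp [r]
      simp only [F, hneg, hx, hx', dite_false, Pi.neg_apply]
      by_cases hi : (i : ℕ) < m
      · simp only [hi, dite_true, norm_neg, hr, hodd, Pi.neg_apply, mul_neg]
      · simp [hi]
  obtain ⟨x, hxK, hx0⟩ := Pool.Agent.Helper325.BorsukUlam.borsuk_ulam n F hF hFodd
  have hxne : x ≠ 0 := by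
    rintro rfl
    simp [Pool.Agent.Helper325.BorsukUlam.K] at hxK
  have hux : u x ≠ 0 := hne x hxne
  apply hcon (r (u x) hux)
  funext i
  have h1 := congrFun hx0 ⟨i, i.2.trans_le hmn⟩
  simp only [F, hux, dite_false, i.2, dite_true, Pi.zero_apply, mul_eq_zero, norm_eq_zero,
    false_or] at h1
  exact h1

/-- Continuous argument on a Euclidean space. -/
theorem lift_E {n : ℕ} (f : E n → ℂ) (hf : Continuous f) (h0 : ∀ x, f x ≠ 0) :
    ∃ θ : E n → ℝ, Continuous θ ∧ ∀ x, f x = ‖f x‖ * Complex.exp (θ x * Complex.I) := by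
  have he : Complex.exp (Complex.log (f 0)) = (⟨f, hf⟩ : C(E n, ℂ)) 0 := Complex.exp_log (h0 0)
  obtain ⟨F, ⟨-, hF⟩, -⟩ := Complex.isCoveringMapOn_exp.existsUnique_continuousMap_lifts
    (⟨f, hf⟩ : C(E n, ℂ)) (a₀ := (0 : E n)) he (fun a => by simpa using h0 a)
  refine ⟨fun x => (F x).im, by fun_prop, fun x => ?_⟩
  have hx : Complex.exp (F x) = f x := congrFun hF x
  rw [← hx, Complex.norm_exp]
  conv_lhs => rw [← Complex.re_add_im (F x), Complex.exp_add]
  rw [Complex.ofReal_exp]

theorem exp_eq_of_args {a b : ℝ} (z : ℂ) (hz : z ≠ 0) (ha : z = ‖z‖ * Complex.exp (a * Complex.I))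
    (hb : z = ‖z‖ * Complex.exp (b * Complex.I)) : ∃ k : ℤ, a = b + k * (2 * Real.pi) := by
  have h : Complex.exp (a * Complex.I) = Complex.exp (b * Complex.I) := by
    have h1 : (‖z‖ : ℂ) ≠ 0 := by simpa using hz
    exact mul_left_cancel₀ h1 (ha.symm.trans hb)
  rw [Complex.exp_eq_exp_iff_exists_int] at h
  obtain ⟨k, hk⟩ := h
  refine ⟨k, ?_⟩
  have h2 := congrArg Complex.im hk
  simpa using h2


instance (n : ℕ) : Fact (Module.finrank ℝ (E (n + 1)) = n + 1) := ⟨by simp⟩

theorem stereo_facts {n : ℕ} (v : Sph n) :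
    (∀ y : E n, (stereographic' n v).symm y ≠ v) ∧
    (∀ x : Sph n, x ≠ v → (stereographic' n v).symm (stereographic' n v x) = x) ∧
    (∀ y : E n, stereographic' n v ((stereographic' n v).symm y) = y) ∧
    Continuous (stereographic' n v).symm ∧ ContinuousOn (stereographic' n v) {v}ᶜ := by
  have hs := stereographic'_source (n := n) v
  have ht := stereographic'_target (n := n) v
  refine ⟨fun y => ?_, fun x hx => ?_, fun y => ?_, ?_, ?_⟩
  · have := (stereographic' n v).map_target (x := y) (by rw [ht]; trivial)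
    rw [hs] at this
    exact this
  · exact (stereographic' n v).left_inv (by rw [hs]; exact hx)
  · exact (stereographic' n v).right_inv (by rw [ht]; trivial)
  · have := (stereographic' n v).continuousOn_symm
    rw [ht] at this
    exact continuousOn_univ.mp this
  · have := (stereographic' n v).continuousOn
    rwa [hs] at this

theorem lift_compl {n : ℕ} (f : Sph n → ℂ) (hf : Continuous f) (h0 : ∀ x, f x ≠ 0) (v : Sph n) :
    ∃ θ : Sph n → ℝ, ContinuousOn θ {v}ᶜ ∧
      ∀ x, x ≠ v → f x = ‖f x‖ * Complex.exp (θ x * Complex.I) := by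
  obtain ⟨-, h2, -, h4, h5⟩ := stereo_facts v
  obtain ⟨θ, hθ, hθ'⟩ := lift_E (fun y => f ((stereographic' n v).symm y)) (hf.comp h4)
    (fun y => h0 _)
  refine ⟨fun x => θ (stereographic' n v x), hθ.comp_continuousOn h5, fun x hx => ?_⟩
  have := hθ' (stereographic' n v x)
  rwa [h2 x hx] at this

theorem preconnected_compl_two {n : ℕ} (hn : 2 ≤ n) (v w : Sph n) (hvw : w ≠ v) :
    IsPreconnected ({v}ᶜ ∩ {w}ᶜ : Set (Sph n)) := by
  obtain ⟨h1, h2, h3, h4, h5⟩ := stereo_facts v
  have hrank : 1 < Module.rank ℝ (E n) := by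
    rw [← Module.finrank_eq_rank]
    simp only [finrank_euclideanSpace, Fintype.card_fin]
    exact_mod_cast hn
  have hc : IsPreconnected ({stereographic' n v w}ᶜ : Set (E n)) :=
    (isPathConnected_compl_singleton_of_one_lt_rank hrank _).isConnected.isPreconnected
  have := hc.image _ h4.continuousOn
  convert this using 1
  ext x
  simp only [Set.mem_inter_iff, Set.mem_compl_iff, Set.mem_singleton_iff, Set.mem_image]
  constructor
  · rintro ⟨ha, hb⟩
    refine ⟨stereographic' n v x, ?_, h2 x ha⟩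
    intro h
    apply hb
    rw [← h2 x ha, h, h2 w hvw]
  · rintro ⟨y, hy, rfl⟩
    refine ⟨h1 y, ?_⟩
    intro h
    apply hy
    rw [← h, h3]

theorem const_of_args {X : Type*} [TopologicalSpace X] {S : Set X} (hS : IsPreconnected S)
    {D : X → ℝ} (hD : ContinuousOn D S) (hk : ∀ x ∈ S, ∃ k : ℤ, D x = k * (2 * Real.pi)) :
    ∀ x ∈ S, ∀ y ∈ S, D x = D y := by
  have hdisc : DiscreteTopology (AddSubgroup.zmultiples (2 * Real.pi) : Set ℝ) :=
    inferInstanceAs (DiscreteTopology (AddSubgroup.zmultiples (2 * Real.pi)))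
  intro x hx y hy
  refine hS.constant_of_mapsTo (T := (AddSubgroup.zmultiples (2 * Real.pi) : Set ℝ)) ⟨hdisc⟩ hD ?_ hx hy
  intro z hz
  obtain ⟨k, hk⟩ := hk z hz
  rw [hk]
  exact ⟨k, by simp⟩

/-- **Continuous argument on a sphere of dimension at least two.** -/
theorem lift_sphere {n : ℕ} (hn : 2 ≤ n) (f : Sph n → ℂ) (hf : Continuous f)
    (h0 : ∀ x, f x ≠ 0) :
    ∃ θ : Sph n → ℝ, Continuous θ ∧ ∀ x, f x = ‖f x‖ * Complex.exp (θ x * Complex.I) := by
  classical
  obtain ⟨v⟩ : Nonempty (Sph n) := (NormedSpace.sphere_nonempty.mpr zero_le_one).to_subtype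
  have hvv : -v ≠ v := by
    intro h
    have h1 : -(v : E (n + 1)) = v := congrArg Subtype.val h
    have h2 : (v : E (n + 1)) = 0 := by
      have h4 : (2 : ℝ) • (v : E (n + 1)) = 0 := by
        rw [two_smul]
        nth_rewrite 1 [← h1]
        simp
      exact (smul_eq_zero.mp h4).resolve_left (by norm_num)
    have h3 := v.2
    rw [h2] at h3
    simp at h3
  obtain ⟨θ₁, hc₁, hθ₁⟩ := lift_compl f hf h0 v
  obtain ⟨θ₂, hc₂, hθ₂⟩ := lift_compl f hf h0 (-v)
  have hpre := preconnected_compl_two hn v (-v) hvv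
  have hD : ContinuousOn (fun x => θ₁ x - θ₂ x) ({v}ᶜ ∩ {-v}ᶜ : Set (Sph n)) :=
    (hc₁.mono Set.inter_subset_left).sub (hc₂.mono Set.inter_subset_right)
  have hconst := const_of_args hpre hD (fun x hx => by
    obtain ⟨k, hk⟩ := exp_eq_of_args (f x) (h0 x) (hθ₁ x hx.1) (hθ₂ x hx.2)
    exact ⟨k, by rw [hk]; ring⟩)
  -- a third point
  obtain ⟨p, hp⟩ : ∃ p : Sph n, p ∈ ({v}ᶜ ∩ {-v}ᶜ : Set (Sph n)) := by
    obtain ⟨h1, h2, h3, -, -⟩ := stereo_facts v
    have : Nontrivial (E n) := by
      have : Nonempty (Fin n) := ⟨⟨0, by omega⟩⟩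
      infer_instance
    obtain ⟨y, hy⟩ := exists_ne (stereographic' n v (-v))
    refine ⟨(stereographic' n v).symm y, h1 y, ?_⟩
    intro h
    apply hy
    rw [← h3 y]
    exact congrArg _ h
  set c : ℝ := θ₁ p - θ₂ p with hcdef
  obtain ⟨k, hk⟩ := exp_eq_of_args (f p) (h0 p) (hθ₁ p hp.1) (hθ₂ p hp.2)
  have hck : c = k * (2 * Real.pi) := by rw [hcdef, hk]; ring
  let θ : Sph n → ℝ := fun x => if x = v then θ₂ x + c else θ₁ x
  have hθ1 : ∀ x, x ≠ v → θ x = θ₁ x := fun x hx => by simp [θ, hx]
  have hθ2 : ∀ x, x ≠ -v → θ x = θ₂ x + c := by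
    intro x hx
    by_cases hxv : x = v
    · simp [θ, hxv]
    · rw [hθ1 x hxv]
      have := hconst x ⟨hxv, hx⟩ p hp
      rw [hcdef]; linarith
  refine ⟨θ, ?_, ?_⟩
  · rw [continuous_iff_continuousAt]
    intro x
    by_cases hx : x = v
    · have hx' : x ≠ -v := by rw [hx]; exact hvv.symm
      have hopen : ({-v}ᶜ : Set (Sph n)) ∈ nhds x := isOpen_compl_singleton.mem_nhds hx'
      have h1 : ContinuousAt (fun x => θ₂ x + c) x :=
        (hc₂.continuousAt hopen).add continuousAt_const
      refine h1.congr ?_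
      filter_upwards [hopen] with z hz
      exact (hθ2 z hz).symm
    · have hopen : ({v}ᶜ : Set (Sph n)) ∈ nhds x := isOpen_compl_singleton.mem_nhds hx
      refine (hc₁.continuousAt hopen).congr ?_
      filter_upwards [hopen] with z hz
      exact (hθ1 z hz).symm
  · intro x
    by_cases hx : x = v
    · have hx' : x ≠ -v := by rw [hx]; exact hvv.symm
      rw [hθ2 x hx', hck]
      conv_lhs => rw [hθ₂ x hx']
      congr 1
      push_cast
      rw [add_mul, Complex.exp_add]
      have : Complex.exp ((k : ℂ) * (2 * Real.pi) * Complex.I) = 1 := by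
        rw [mul_assoc]
        exact Complex.exp_int_mul_two_pi_mul_I k
      rw [this, mul_one]
    · rw [hθ1 x hx]
      exact hθ₁ x hx

/-- The continuous argument of an even function is even. -/
theorem lift_even {n : ℕ} (hn : 2 ≤ n) (f : Sph n → ℂ) (hf : Continuous f)
    (h0 : ∀ x, f x ≠ 0) (heven : ∀ x, f (-x) = f x) :
    ∃ θ : Sph n → ℝ, Continuous θ ∧ (∀ x, θ (-x) = θ x) ∧
      ∀ x, f x = ‖f x‖ * Complex.exp (θ x * Complex.I) := by
  obtain ⟨θ, hθ, hθ'⟩ := lift_sphere hn f hf h0
  refine ⟨θ, hθ, ?_, hθ'⟩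
  have hrank : 1 < Module.rank ℝ (E (n + 1)) := by
    rw [← Module.finrank_eq_rank]
    simp only [finrank_euclideanSpace, Fintype.card_fin]
    exact_mod_cast (by omega : 1 < n + 1)
  have hpre : IsPreconnected (Set.univ : Set (Sph n)) := by
    have h1 : IsPreconnected (sphere (0 : E (n + 1)) 1) := isPreconnected_sphere hrank 0 1
    exact isPreconnected_iff_preconnectedSpace.mp h1 |>.isPreconnected_univ
  have hc := const_of_args (X := Sph n) hpre (D := fun x => θ (-x) - θ x)
    ((hθ.comp continuous_neg).sub hθ).continuousOn (fun x _ => by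
      have h1 := hθ' (-x)
      rw [heven] at h1
      obtain ⟨k, hk⟩ := exp_eq_of_args (f x) (h0 x) h1 (hθ' x)
      exact ⟨k, by rw [hk]; ring⟩)
  intro x
  have h1 := hc x trivial (-x) trivial
  simp only [neg_neg] at h1
  linarith

end Pool.Agent.H370R3.SphereTools
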