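import Mathlib
import Pool.Agent.H370R3.SphereTools
import Pool.Agent.H370R3.Psi

/-!
Equivariant maps from a sphere of dimension at least two to a neighbourhood of the mapping
cylinder: the preimage of (a neighbourhood of) the free end is split by an odd function.
-/

namespace Pool.Agent.H370R3.Detect

open Psi SphereTools

theorem unit_inner {u v : ℝ} (h : u ^ 2 + v ^ 2 = 1) :
    0 ≤ u * cl (1 + 3 * (u - v)) + v * cl (1 + 3 * (u + v)) := by
  obtain ⟨p, hp⟩ : ∃ p, p = u - v := ⟨_, rfl⟩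
  obtain ⟨r, hr⟩ : ∃ r, r = u + v := ⟨_, rfl⟩
  have hu : u = (p + r) / 2 := by rw [hp, hr]; ring
  have hv : v = (r - p) / 2 := by rw [hp, hr]; ring
  have hpr : p ^ 2 + r ^ 2 = 2 := by rw [hp, hr]; nlinarith
  rw [← hp, ← hr, hu, hv]
  rcases le_total 0 p with h1 | h1
  · rw [cl_of_ge (by linarith : 1 ≤ 1 + 3 * p)]
    rcases le_total 0 r with h2 | h2
    · rw [cl_of_ge (by linarith : 1 ≤ 1 + 3 * r)]; nlinarith
    · rcases le_total r (-2/3) with h3 | h3
      · rw [cl_of_le (by linarith : 1 + 3 * r ≤ -1)]; nlinarith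
      · rw [cl_of_mem (by linarith : -1 ≤ 1 + 3 * r) (by linarith)]
        have h4 : (6:ℝ)/5 ≤ p := by nlinarith
        nlinarith [mul_nonneg (neg_nonneg.mpr h2) (by linarith : 0 ≤ 3 * p / 2 - 1), sq_nonneg r]
  · rcases le_total p (-2/3) with h1' | h1'
    · rw [cl_of_le (by linarith : 1 + 3 * p ≤ -1)]
      rcases le_total 0 r with h2 | h2
      · rw [cl_of_ge (by linarith : 1 ≤ 1 + 3 * r)]; nlinarith
      · rcases le_total r (-2/3) with h3 | h3
        · rw [cl_of_le (by linarith : 1 + 3 * r ≤ -1)]; nlinarith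
        · rw [cl_of_mem (by linarith : -1 ≤ 1 + 3 * r) (by linarith)]
          nlinarith [mul_nonneg (neg_nonneg.mpr h1) (by linarith : 0 ≤ 1 + 3 * r / 2), sq_nonneg r]
    · rw [cl_of_mem (by linarith : -1 ≤ 1 + 3 * p) (by linarith)]
      rcases le_total 0 r with h2 | h2
      · rw [cl_of_ge (by linarith : 1 ≤ 1 + 3 * r)]
        nlinarith [mul_nonneg h2 (by linarith : 0 ≤ 1 + 3 * p / 2), sq_nonneg p]
      · have h4 : r ≤ -(6:ℝ)/5 := by nlinarith
        rw [cl_of_le (by linarith : 1 + 3 * r ≤ -1)]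
        nlinarith [mul_nonneg (neg_nonneg.mpr h1) (by linarith : 0 ≤ -(3 * r / 2) - 1), sq_nonneg p]

theorem unit_big {u v : ℝ} (h : u ^ 2 + v ^ 2 = 1) :
    |cl (1 + 3 * (u - v))| = 1 ∨ |cl (1 + 3 * (u + v))| = 1 := by
  by_cases h1 : |1 + 3 * (u - v)| < 1
  · right
    rcases le_abs.mp (unit_q h h1) with h2 | h2
    · rw [cl_of_ge (by linarith)]; simp
    · rw [cl_of_le (by linarith)]; simp
  · left
    rcases le_abs.mp (not_lt.mp h1) with h2 | h2
    · rw [cl_of_ge h2]; simp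
    · rw [cl_of_le (by linarith)]; simp

theorem near_angle {θ φ κ : ℝ}
    (h : ‖Complex.exp (θ * Complex.I) - Complex.exp (φ * Complex.I)‖ ≤ κ) :
    ∃ k : ℤ, |θ - φ - 2 * Real.pi * k| ≤ Real.pi / 2 * κ := by
  have hpi := Real.pi_pos
  set k : ℤ := round ((θ - φ) / (2 * Real.pi)) with hk
  refine ⟨k, ?_⟩
  set r : ℝ := θ - φ - 2 * Real.pi * k with hr
  have h1 : |r| ≤ Real.pi := by
    have h2 := abs_sub_round ((θ - φ) / (2 * Real.pi))
    rw [← hk] at h2
    have h3 : r = ((θ - φ) / (2 * Real.pi) - k) * (2 * Real.pi) := by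
      rw [hr]; field_simp
    rw [h3, abs_mul, abs_of_pos (by positivity : 0 < 2 * Real.pi)]
    nlinarith
  have h4 : ‖Complex.exp (Complex.I * r) - 1‖ ≤ κ := by
    refine le_trans (le_of_eq ?_) h
    have h5 : Complex.exp (θ * Complex.I) - Complex.exp (φ * Complex.I) =
        Complex.exp (φ * Complex.I) * (Complex.exp (Complex.I * r) - 1) := by
      rw [mul_sub, mul_one, ← Complex.exp_add]
      congr 1
      have : (φ : ℂ) * Complex.I + Complex.I * r = θ * Complex.I - (k : ℂ) * (2 * Real.pi * Complex.I) := by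
        rw [hr]; push_cast; ring
      rw [this, Complex.exp_sub, Complex.exp_int_mul_two_pi_mul_I, div_one]
    rw [h5, norm_mul, Complex.norm_exp_ofReal_mul_I, one_mul]
  rw [Complex.norm_exp_I_mul_ofReal_sub_one] at h4
  have h6 : 2 / Real.pi * |r / 2| ≤ |Real.sin (r / 2)| := by
    apply Real.mul_abs_le_abs_sin
    rw [abs_div, abs_two]
    linarith
  rw [norm_mul, Real.norm_eq_abs, Real.norm_eq_abs, abs_two] at h4
  rw [abs_div, abs_two] at h6
  have h7 : 2 / Real.pi * (|r| / 2) * 2 ≤ κ := by linarith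
  have h8 : 2 / Real.pi * (|r| / 2) * 2 = 2 * |r| / Real.pi := by ring
  rw [h8, div_le_iff₀ hpi] at h7
  linarith

theorem norm_unit_sub {a p : ℂ} {η : ℝ} (hp : ‖p‖ = 1) (h : ‖a - p‖ ≤ η) (ha : a ≠ 0) :
    ‖a / ‖a‖ - p‖ ≤ 2 * η := by
  have h1 : |‖a‖ - 1| ≤ η := by
    rw [← hp]; exact (abs_norm_sub_norm_le a p).trans h
  have h2 : ‖a / ‖a‖ - a‖ = |‖a‖ - 1| := by
    have hn : ‖a‖ ≠ 0 := norm_ne_zero_iff.mpr ha
    have hn' : (‖a‖ : ℂ) ≠ 0 := by exact_mod_cast hn
    have : a / ‖a‖ - a = (a / ‖a‖) * ((1 - ‖a‖ : ℝ) : ℂ) := by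
      push_cast; field_simp
    rw [this, norm_mul, Complex.norm_real, norm_div, Complex.norm_real, norm_norm, div_self hn,
      one_mul, Real.norm_eq_abs, abs_sub_comm]
  calc ‖a / ‖a‖ - p‖ = ‖(a / ‖a‖ - a) + (a - p)‖ := by ring_nf
    _ ≤ ‖a / ‖a‖ - a‖ + ‖a - p‖ := norm_add_le _ _
    _ ≤ 2 * η := by rw [h2]; linarith

theorem norm_unit_sub' {y z : ℂ} (hy : y ≠ 0) (hz : z ≠ 0) :
    ‖y / ‖y‖ - z / ‖z‖‖ ≤ 2 * ‖y - z‖ / ‖y‖ := by
  have hny : 0 < ‖y‖ := norm_pos_iff.mpr hy
  have hnz : 0 < ‖z‖ := norm_pos_iff.mpr hz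
  have h1 : y / (‖y‖ : ℂ) - z / (‖z‖ : ℂ) = (y - z) / (‖y‖ : ℂ) + (z / ‖z‖) * (((‖z‖ - ‖y‖) / ‖y‖ : ℝ) : ℂ) := by
    have a1 : (‖y‖ : ℂ) ≠ 0 := by exact_mod_cast hny.ne'
    have a2 : (‖z‖ : ℂ) ≠ 0 := by exact_mod_cast hnz.ne'
    push_cast
    field_simp
    ring
  rw [h1]
  refine (norm_add_le _ _).trans ?_
  rw [norm_mul, norm_div, norm_div, Complex.norm_real, Complex.norm_real, norm_norm, norm_norm,
    div_self hnz.ne', one_mul, Complex.norm_real, Real.norm_eq_abs, abs_div, abs_of_pos hny]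
  have h2 : |‖z‖ - ‖y‖| ≤ ‖y - z‖ := by
    rw [abs_sub_comm]; exact abs_norm_sub_norm_le y z
  rw [← add_div]
  gcongr
  linarith

theorem q_lip {w w' : ℂ} {κ : ℝ} (h : ‖w - w'‖ ≤ κ) :
    |cl (q₁ w) - cl (q₁ w')| ≤ 6 * κ ∧ |cl (q₂ w) - cl (q₂ w')| ≤ 6 * κ := by
  have h1 : |w.re - w'.re| ≤ κ := by
    have := Complex.abs_re_le_norm (w - w'); rw [Complex.sub_re] at this; linarith
  have h2 : |w.im - w'.im| ≤ κ := by
    have := Complex.abs_im_le_norm (w - w'); rw [Complex.sub_im] at this; linarith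
  rw [abs_le] at h1 h2
  constructor
  · refine (cl_lip _ _).trans ?_
    unfold q₁
    rw [abs_le]; constructor <;> linarith [h1.1, h1.2, h2.1, h2.2]
  · refine (cl_lip _ _).trans ?_
    unfold q₂
    rw [abs_le]; constructor <;> linarith [h1.1, h1.2, h2.1, h2.2]

/-- The value of a coordinate of a point near `P`: the angle is near a known one. -/
theorem angle_near {a p : ℂ} {θ q : ℝ} (ha : a ≠ 0)
    (hθ : -a = ‖-a‖ * Complex.exp (θ * Complex.I)) (hp : p = al q) (h : ‖a - p‖ ≤ 1 / 1000) :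
    ∃ k : ℤ, |θ - Real.pi * cl q - 2 * Real.pi * k| ≤ 1 / 250 := by
  have h1 := norm_unit_sub (by rw [hp]; exact al_norm q) h ha
  have hn : (‖a‖ : ℂ) ≠ 0 := by exact_mod_cast norm_ne_zero_iff.mpr ha
  have h2 : Complex.exp (θ * Complex.I) - Complex.exp (((Real.pi * cl q : ℝ) : ℂ) * Complex.I) =
      -(a / ‖a‖ - p) := by
    rw [norm_neg] at hθ
    have h3 : Complex.exp (θ * Complex.I) = -a / ‖a‖ := by
      rw [hθ]; field_simp
    rw [h3, hp]
    unfold al
    ring
  have h4 : ‖Complex.exp (θ * Complex.I) - Complex.exp (((Real.pi * cl q : ℝ) : ℂ) * Complex.I)‖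
      ≤ 2 * (1 / 1000) := by
    rw [h2, norm_neg]; exact h1
  obtain ⟨k, hk⟩ := near_angle h4
  refine ⟨k, hk.trans ?_⟩
  have := Real.pi_lt_d2
  linarith

theorem detect {n : ℕ} (hn : 2 ≤ n) (y a b : Sph n → ℂ) (hy : Continuous y) (ha : Continuous a)
    (hb : Continuous b) (hyo : ∀ x, y (-x) = - y x) (hae : ∀ x, a (-x) = a x)
    (hbe : ∀ x, b (-x) = b x)
    (hP : ∀ x, ∃ p : ℂ × ℂ × ℂ, P p ∧ ‖y x - p.1‖ ≤ 1 / 1000 ∧ ‖a x - p.2.1‖ ≤ 1 / 1000 ∧
      ‖b x - p.2.2‖ ≤ 1 / 1000) :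
    ∃ g : Sph n → ℝ, Continuous g ∧ (∀ x, g (-x) = - g x) ∧ ∀ x, 1 / 2 ≤ ‖y x‖ → g x ≠ 0 := by
  classical
  have hpi := Real.pi_gt_three
  have hpi' := Real.pi_lt_d2
  have hnorm : ∀ p : ℂ × ℂ × ℂ, P p → ‖p.2.1‖ = 1 ∧ ‖p.2.2‖ = 1 := by
    rintro p ⟨-, h | h, -⟩
    · exact ⟨by rw [h.1]; simp, h.2⟩
    · exact ⟨h.2, by rw [h.1]; simp⟩
  have hane : ∀ x, a x ≠ 0 := by
    intro x hx
    obtain ⟨p, hp, -, h2, -⟩ := hP x
    rw [hx, zero_sub, norm_neg, (hnorm p hp).1] at h2
    norm_num at h2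
  have hbne : ∀ x, b x ≠ 0 := by
    intro x hx
    obtain ⟨p, hp, -, -, h2⟩ := hP x
    rw [hx, zero_sub, norm_neg, (hnorm p hp).2] at h2
    norm_num at h2
  obtain ⟨θa, hθac, hθae, hθa⟩ := lift_even hn (fun x => - a x) ha.neg
    (fun x => neg_ne_zero.mpr (hane x)) (fun x => by rw [hae])
  obtain ⟨θb, hθbc, hθbe, hθb⟩ := lift_even hn (fun x => - b x) hb.neg
    (fun x => neg_ne_zero.mpr (hbne x)) (fun x => by rw [hbe])
  -- the functions e_λ
  let e : ℤ × ℤ → Sph n → ℂ := fun l x =>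
    ((θa x - 2 * Real.pi * l.1 : ℝ) : ℂ) + ((θb x - 2 * Real.pi * l.2 : ℝ) : ℂ) * Complex.I
  have hec : ∀ l, Continuous (e l) := by intro l; fun_prop
  have hene : ∀ l x, e l x ≠ 0 := by
    intro l x h0
    have h1 : θa x = 2 * Real.pi * l.1 := by
      have := congrArg Complex.re h0
      simp [e] at this
      linarith
    have h2 : θb x = 2 * Real.pi * l.2 := by
      have := congrArg Complex.im h0
      simp [e] at this
      linarith
    have hexp : ∀ k : ℤ, Complex.exp (((2 * Real.pi * k : ℝ) : ℂ) * Complex.I) = 1 := by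
      intro k
      have : ((2 * Real.pi * k : ℝ) : ℂ) * Complex.I = (k : ℂ) * (2 * Real.pi * Complex.I) := by
        push_cast; ring
      rw [this, Complex.exp_int_mul_two_pi_mul_I]
    have h3 := hθa x
    have h4 := hθb x
    rw [h1, hexp, mul_one] at h3
    rw [h2, hexp, mul_one] at h4
    obtain ⟨p, ⟨-, hp, -⟩, -, h5, h6⟩ := hP x
    rcases hp with ⟨hp, -⟩ | ⟨hp, -⟩
    · rw [hp] at h5
      have h7 : a x - 1 = ((-(‖-a x‖ + 1) : ℝ) : ℂ) := by
        push_cast; rw [← h3]; ring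
      rw [h7, Complex.norm_real, Real.norm_eq_abs, abs_neg, abs_of_nonneg (by positivity)] at h5
      have := norm_nonneg (-a x)
      linarith
    · rw [hp] at h6
      have h7 : b x - 1 = ((-(‖-b x‖ + 1) : ℝ) : ℂ) := by
        push_cast; rw [← h4]; ring
      rw [h7, Complex.norm_real, Real.norm_eq_abs, abs_neg, abs_of_nonneg (by positivity)] at h6
      have := norm_nonneg (-b x)
      linarith
  have hee : ∀ l x, e l (-x) = e l x := by
    intro l x; simp only [e, hθae, hθbe]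
  choose Θ hΘc hΘe hΘ using fun l => lift_even hn (e l) (hec l) (hene l) (hee l)
  -- reference angles
  have hmaxpos : ∀ x, 0 < max ‖y x‖ (1 / 4) := fun x => lt_of_lt_of_le (by norm_num) (le_max_right _ _)
  let w : Sph n → ℂ := fun x => (y x / ((max ‖y x‖ (1 / 4) : ℝ) : ℂ)) ^ 2
  have hwc : Continuous w := by
    refine Continuous.pow (Continuous.div hy ?_ ?_) 2
    · exact Complex.continuous_ofReal.comp (hy.norm.max continuous_const)
    · intro x
      exact_mod_cast (hmaxpos x).ne'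
  have hwe : ∀ x, w (-x) = w x := by
    intro x; simp only [w, hyo, norm_neg, neg_div, neg_sq]
  let C1 : Sph n → ℝ := fun x => Real.pi * cl (q₁ (w x))
  let C2 : Sph n → ℝ := fun x => Real.pi * cl (q₂ (w x))
  have hC1 : Continuous C1 := continuous_const.mul (cl_cont.comp (q₁_cont.comp hwc))
  have hC2 : Continuous C2 := continuous_const.mul (cl_cont.comp (q₂_cont.comp hwc))
  let W : ℤ × ℤ → Sph n → ℝ := fun l x =>
    max 0 (1 - max |θa x - C1 x - 2 * Real.pi * l.1| |θb x - C2 x - 2 * Real.pi * l.2|)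
  have hWc : ∀ l, Continuous (W l) := by
    intro l
    refine continuous_const.max (continuous_const.sub (Continuous.max ?_ ?_))
    · exact ((hθac.sub hC1).sub continuous_const).abs
    · exact ((hθbc.sub hC2).sub continuous_const).abs
  obtain ⟨M, hM⟩ : ∃ M : ℝ, ∀ x, |θa x| ≤ M ∧ |θb x| ≤ M := by
    have hcomp : IsCompact (Set.univ : Set (Sph n)) := isCompact_univ
    obtain ⟨M1, h1⟩ := hcomp.exists_bound_of_continuousOn (f := θa) hθac.continuousOn
    obtain ⟨M2, h2⟩ := hcomp.exists_bound_of_continuousOn (f := θb) hθbc.continuousOn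
    exact ⟨max M1 M2, fun x => ⟨(h1 x trivial).trans (le_max_left _ _),
      (h2 x trivial).trans (le_max_right _ _)⟩⟩
  obtain ⟨N, hN⟩ : ∃ N : ℕ, M + 5 ≤ N := exists_nat_ge _
  let box : Finset (ℤ × ℤ) := Finset.Icc (-(N : ℤ)) N ×ˢ Finset.Icc (-(N : ℤ)) N
  let h : ℤ × ℤ → Sph n → ℝ := fun l x =>
    (y x * Complex.exp (((-(Θ l x / 2) : ℝ) : ℂ) * Complex.I)).re
  have hhc : ∀ l, Continuous (h l) := by
    intro l
    have := hΘc l
    fun_prop
  refine ⟨fun x => ∑ l ∈ box, W l x * h l x, ?_, ?_, ?_⟩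
  · exact continuous_finsetSum _ fun l _ => (hWc l).mul (hhc l)
  · intro x
    simp only
    rw [← Finset.sum_neg_distrib]
    refine Finset.sum_congr rfl fun l _ => ?_
    simp only [W, C1, C2, h, hθae, hθbe, hwe, hyo, hΘe]
    rw [neg_mul, Complex.neg_re]
    ring
  · intro x hx
    obtain ⟨p, hp, h1, h2, h3⟩ := hP x
    have hyx : y x ≠ 0 := by
      intro h0; rw [h0, norm_zero] at hx; norm_num at hx
    have hp1 : p.1 ≠ 0 := by
      intro h0
      rw [h0, sub_zero] at h1
      linarith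
    obtain ⟨-, -, hp3⟩ := hp
    obtain ⟨hp4, hp5⟩ := hp3 hp1
    set w0 : ℂ := (p.1 / ‖p.1‖) ^ 2 with hw0
    have hwx : w x = (y x / ‖y x‖) ^ 2 := by
      simp only [w]
      rw [max_eq_left (by linarith)]
    have hwd : ‖w x - w0‖ ≤ 8 / 1000 := by
      have e1 := norm_unit_sub' hyx hp1
      have e2 : 2 * ‖y x - p.1‖ / ‖y x‖ ≤ 4 / 1000 := by
        rw [div_le_iff₀ (by linarith)]
        linarith
      have e3 : ‖y x / (‖y x‖ : ℂ)‖ = 1 := by
        rw [norm_div, Complex.norm_real, norm_norm, div_self (norm_ne_zero_iff.mpr hyx)]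
      have e4 : ‖p.1 / (‖p.1‖ : ℂ)‖ = 1 := by
        rw [norm_div, Complex.norm_real, norm_norm, div_self (norm_ne_zero_iff.mpr hp1)]
      have e5 : w x - w0 = (y x / ‖y x‖ - p.1 / ‖p.1‖) * (y x / ‖y x‖ + p.1 / ‖p.1‖) := by
        rw [hwx, hw0]; ring
      rw [e5, norm_mul]
      have e6 : ‖y x / (‖y x‖ : ℂ) + p.1 / (‖p.1‖ : ℂ)‖ ≤ 2 := by
        refine (norm_add_le _ _).trans ?_
        rw [e3, e4]; norm_num
      calc _ ≤ (4 / 1000 : ℝ) * 2 := by
            apply mul_le_mul (e1.trans e2) e6 (norm_nonneg _) (by norm_num)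
        _ = 8 / 1000 := by norm_num
    obtain ⟨hl1, hl2⟩ := q_lip hwd
    obtain ⟨k1, hk1⟩ := angle_near (hane x) (hθa x) hp4 h2
    obtain ⟨k2, hk2⟩ := angle_near (hbne x) (hθb x) hp5 h3
    have hr1 : |θa x - C1 x - 2 * Real.pi * k1| ≤ 1 / 4 := by
      have e1 : θa x - C1 x - 2 * Real.pi * k1 =
          (θa x - Real.pi * cl (q₁ w0) - 2 * Real.pi * k1) -
            Real.pi * (cl (q₁ (w x)) - cl (q₁ w0)) := by
        simp only [C1]; ring
      rw [e1]
      refine (abs_sub _ _).trans ?_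
      rw [abs_mul, abs_of_pos Real.pi_pos]
      have := abs_nonneg (cl (q₁ (w x)) - cl (q₁ w0))
      nlinarith
    have hr2 : |θb x - C2 x - 2 * Real.pi * k2| ≤ 1 / 4 := by
      have e1 : θb x - C2 x - 2 * Real.pi * k2 =
          (θb x - Real.pi * cl (q₂ w0) - 2 * Real.pi * k2) -
            Real.pi * (cl (q₂ (w x)) - cl (q₂ w0)) := by
        simp only [C2]; ring
      rw [e1]
      refine (abs_sub _ _).trans ?_
      rw [abs_mul, abs_of_pos Real.pi_pos]
      have := abs_nonneg (cl (q₂ (w x)) - cl (q₂ w0))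
      nlinarith
    have hC1b : |C1 x| ≤ Real.pi := by
      simp only [C1]
      rw [abs_mul, abs_of_pos Real.pi_pos]
      have := cl_abs_le (q₁ (w x))
      nlinarith
    have hC2b : |C2 x| ≤ Real.pi := by
      simp only [C2]
      rw [abs_mul, abs_of_pos Real.pi_pos]
      have := cl_abs_le (q₂ (w x))
      nlinarith
    have hbound : ∀ (θ C : ℝ) (k : ℤ), |θ| ≤ M → |C| ≤ Real.pi →
        |θ - C - 2 * Real.pi * k| ≤ 1 / 4 → k ∈ Finset.Icc (-(N : ℤ)) N := by
      intro θ C k g1 g2 g3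
      rw [abs_le] at g1 g2 g3
      rw [Finset.mem_Icc]
      constructor
      · have : (-(N : ℝ)) ≤ k := by nlinarith [g1.1, g1.2, g2.1, g2.2, g3.1, g3.2]
        exact_mod_cast this
      · have : (k : ℝ) ≤ N := by nlinarith [g1.1, g1.2, g2.1, g2.2, g3.1, g3.2]
        exact_mod_cast this
    have hmem : ((k1, k2) : ℤ × ℤ) ∈ box := by
      rw [Finset.mem_product]
      exact ⟨hbound _ _ _ (hM x).1 hC1b hr1, hbound _ _ _ (hM x).2 hC2b hr2⟩
    have hfar : ∀ (θ C : ℝ) (k k' : ℤ), k' ≠ k → |θ - C - 2 * Real.pi * k| ≤ 1 / 4 →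
        1 ≤ |θ - C - 2 * Real.pi * k'| := by
      intro θ C k k' hkk g
      have g1 : (1 : ℝ) ≤ |(k : ℝ) - k'| := by
        have : 1 ≤ |k - k'| := Int.one_le_abs (sub_ne_zero.mpr (Ne.symm hkk))
        exact_mod_cast this
      have g2 : θ - C - 2 * Real.pi * k' = 2 * Real.pi * ((k : ℝ) - k') + (θ - C - 2 * Real.pi * k) := by
        ring
      have g3 := abs_sub_abs_le_abs_sub (2 * Real.pi * ((k : ℝ) - k')) (-(θ - C - 2 * Real.pi * k))
      rw [sub_neg_eq_add, ← g2, abs_neg, abs_mul, abs_of_pos (by positivity : 0 < 2 * Real.pi)] at g3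
      nlinarith
    have hsum : ∑ l ∈ box, W l x * h l x = W (k1, k2) x * h (k1, k2) x := by
      refine Finset.sum_eq_single_of_mem _ hmem ?_
      rintro ⟨l1, l2⟩ - hne
      have : W (l1, l2) x = 0 := by
        simp only [W]
        apply max_eq_left
        by_cases h1 : l1 = k1
        · have h2 : l2 ≠ k2 := by rintro rfl; exact hne (by rw [h1])
          have := hfar _ _ _ _ h2 hr2
          have := le_max_right |θa x - C1 x - 2 * Real.pi * l1| |θb x - C2 x - 2 * Real.pi * l2|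
          linarith
        · have := hfar _ _ _ _ h1 hr1
          have := le_max_left |θa x - C1 x - 2 * Real.pi * l1| |θb x - C2 x - 2 * Real.pi * l2|
          linarith
      rw [this, zero_mul]
    simp only
    rw [hsum]
    apply mul_ne_zero
    · have : 0 < 1 - max |θa x - C1 x - 2 * Real.pi * k1| |θb x - C2 x - 2 * Real.pi * k2| := by
        have := max_le hr1 hr2
        linarith
      simp only [W]
      rw [max_eq_right this.le]
      exact this.ne'
    · -- the geometric core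
      intro hre
      set z : ℂ := y x * Complex.exp (((-(Θ (k1, k2) x / 2) : ℝ) : ℂ) * Complex.I) with hz
      have hre' : z.re = 0 := hre
      have hzn : ‖z‖ = ‖y x‖ := by
        rw [hz, norm_mul, Complex.norm_exp_ofReal_mul_I, mul_one]
      have hz2 : z ^ 2 = -((‖y x‖ : ℂ)) ^ 2 := by
        rw [← hzn]
        apply Complex.ext
        · rw [pow_two, Complex.mul_re, hre']
          have := Complex.sq_norm z
          rw [Complex.normSq_apply, hre'] at this
          simp only [Complex.neg_re]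
          rw [← Complex.ofReal_pow, Complex.ofReal_re]
          nlinarith
        · rw [pow_two, Complex.mul_im, hre']
          simp only [Complex.neg_im]
          rw [← Complex.ofReal_pow, Complex.ofReal_im]
          ring
      have hz3 : z ^ 2 * Complex.exp ((Θ (k1, k2) x : ℂ) * Complex.I) = y x ^ 2 := by
        rw [hz, mul_pow, ← Complex.exp_nat_mul, mul_assoc, ← Complex.exp_add]
        have : ((2 : ℕ) : ℂ) * (((-(Θ (k1, k2) x / 2) : ℝ) : ℂ) * Complex.I) +
            (Θ (k1, k2) x : ℂ) * Complex.I = 0 := by push_cast; ring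
        rw [this, Complex.exp_zero, mul_one]
      have hwe' : Complex.exp ((Θ (k1, k2) x : ℂ) * Complex.I) = - w x := by
        rw [hwx, div_pow, ← hz3, hz2]
        have : (‖y x‖ : ℂ) ≠ 0 := by exact_mod_cast norm_ne_zero_iff.mpr hyx
        field_simp
      have he := hΘ (k1, k2) x
      rw [hwe'] at he
      set R : ℝ := ‖e (k1, k2) x‖ with hR
      have here : θa x - 2 * Real.pi * k1 = -(R * (w x).re) := by
        have := congrArg Complex.re he
        simp [e] at this
        linarith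
      have heim : θb x - 2 * Real.pi * k2 = -(R * (w x).im) := by
        have := congrArg Complex.im he
        simp [e] at this
        linarith
      have hw1 : (w x).re ^ 2 + (w x).im ^ 2 = 1 := by
        have e1 : ‖w x‖ = 1 := by
          rw [hwx, norm_pow, norm_div, Complex.norm_real, norm_norm,
            div_self (norm_ne_zero_iff.mpr hyx), one_pow]
        have e2 := Complex.sq_norm (w x)
        rw [e1, Complex.normSq_apply] at e2
        nlinarith
      have hin := unit_inner hw1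
      have hbig := unit_big hw1
      have hRnn : 0 ≤ R := norm_nonneg _
      have hCre : C1 x = Real.pi * cl (1 + 3 * ((w x).re - (w x).im)) := rfl
      have hCim : C2 x = Real.pi * cl (1 + 3 * ((w x).re + (w x).im)) := rfl
      set u := (w x).re with hu
      set v := (w x).im with hv
      have hub : |u| ≤ 1 := by rw [abs_le]; constructor <;> nlinarith
      have hvb : |v| ≤ 1 := by rw [abs_le]; constructor <;> nlinarith
      -- the error terms
      obtain ⟨r1, hr1'⟩ : ∃ r1, r1 = θa x - C1 x - 2 * Real.pi * k1 := ⟨_, rfl⟩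
      obtain ⟨r2, hr2'⟩ : ∃ r2, r2 = θb x - C2 x - 2 * Real.pi * k2 := ⟨_, rfl⟩
      rw [← hr1'] at hr1
      rw [← hr2'] at hr2
      have f1 : C1 x + r1 = -(R * u) := by rw [hr1', ← here]; ring
      have f2 : C2 x + r2 = -(R * v) := by rw [hr2', ← heim]; ring
      have f3 : (C1 x + r1) * u + (C2 x + r2) * v = -R := by
        rw [f1, f2]
        have : -(R * u) * u + -(R * v) * v = -R * (u ^ 2 + v ^ 2) := by ring
        rw [this, hw1]; ring
      have f4 : 0 ≤ C1 x * u + C2 x * v := by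
        rw [hCre, hCim]
        have : Real.pi * cl (1 + 3 * (u - v)) * u + Real.pi * cl (1 + 3 * (u + v)) * v =
          Real.pi * (u * cl (1 + 3 * (u - v)) + v * cl (1 + 3 * (u + v))) := by ring
        rw [this]
        exact mul_nonneg Real.pi_pos.le hin
      have f5 : |r1 * u| ≤ 1 / 4 := by
        rw [abs_mul]
        calc |r1| * |u| ≤ (1 / 4) * 1 := mul_le_mul hr1 hub (abs_nonneg _) (by norm_num)
          _ = 1 / 4 := by norm_num
      have f6 : |r2 * v| ≤ 1 / 4 := by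
        rw [abs_mul]
        calc |r2| * |v| ≤ (1 / 4) * 1 := mul_le_mul hr2 hvb (abs_nonneg _) (by norm_num)
          _ = 1 / 4 := by norm_num
      have f7 : R ≤ 1 / 2 := by
        have g1 := (abs_le.mp f5).1
        have g2 := (abs_le.mp f6).1
        nlinarith
      have f8 : ∀ (C r t : ℝ), |C| = Real.pi → |r| ≤ 1 / 4 → |t| ≤ 1 → C + r = -(R * t) → False := by
        intro C r t g1 g2 g3 g4
        have g5 : |C + r| ≤ 1 / 2 := by
          rw [g4, abs_neg, abs_mul, abs_of_nonneg hRnn]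
          nlinarith [abs_nonneg t]
        have g6 : |C| ≤ |C + r| + |r| := by
          have := abs_sub (C + r) r
          simpa using this
        linarith
      rcases hbig with hbig | hbig
      · refine f8 (C1 x) r1 u ?_ hr1 hub f1
        rw [hCre, abs_mul, hbig, abs_of_pos Real.pi_pos, mul_one]
      · refine f8 (C2 x) r2 v ?_ hr2 hvb f2
        rw [hCim, abs_mul, hbig, abs_of_pos Real.pi_pos, mul_one]

end Pool.Agent.H370R3.Detect
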