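import Mathlib
import Pool.Agent.H370R3.SphereTools
import Pool.Agent.H370R3.Psi
import Pool.Agent.H370R3.Detect

/-!
The spaces `Y_k`, and the equivariant map from the `2k`-sphere to the suspension of `Y_k`,
written as a pair of a real function and a partially continuous map.
-/

namespace Pool.Agent.H370R3.Net

open Psi SphereTools

abbrev Z (k : ℕ) := Fin k → ℂ × ℂ × ℂ

/-- the involution -/
def nu {k : ℕ} (p : Z k) : Z k := fun i => (-(p i).1, (p i).2.1, (p i).2.2)

theorem nu_nu {k : ℕ} (p : Z k) : nu (nu p) = p := by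
  funext i; simp [nu]

theorem nu_dist {k : ℕ} (p q : Z k) : dist (nu p) (nu q) = dist p q := by
  have h : ∀ x y : ℂ × ℂ × ℂ, dist ((-x.1, x.2.1, x.2.2) : ℂ × ℂ × ℂ) (-y.1, y.2.1, y.2.2) =
      dist x y := by
    intro x y
    rw [Prod.dist_eq, Prod.dist_eq, Prod.dist_eq, Prod.dist_eq]
    simp only
    rw [dist_neg_neg]
  apply le_antisymm
  · rw [dist_pi_le_iff dist_nonneg]
    intro i
    unfold nu
    rw [h]
    exact dist_le_pi_dist p q i
  · rw [dist_pi_le_iff dist_nonneg]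
    intro i
    rw [← h]
    exact dist_le_pi_dist (nu p) (nu q) i

theorem nu_cont {k : ℕ} : Continuous (nu : Z k → Z k) := by
  unfold nu
  fun_prop

/-- The space `Y_k`. -/
def Ys (k : ℕ) : Set (Z k) := {p | (∀ i, P (p i)) ∧ ∃ i, ‖(p i).1‖ = 1}

theorem P_neg {p : ℂ × ℂ × ℂ} (h : P p) : P (-p.1, p.2.1, p.2.2) := by
  obtain ⟨h1, h2, h3⟩ := h
  refine ⟨by simpa using h1, h2, ?_⟩
  intro hne
  have := h3 (by simpa using hne)
  simpa [neg_div, neg_sq] using this

theorem nu_mem {k : ℕ} {p : Z k} (h : p ∈ Ys k) : nu p ∈ Ys k := by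
  obtain ⟨h1, i, h2⟩ := h
  exact ⟨fun i => P_neg (h1 i), i, by simpa [nu] using h2⟩

theorem Ys_sub {k : ℕ} : Ys k ⊆ Metric.closedBall (0 : Z k) 1 := by
  rintro p ⟨h1, -⟩
  rw [Metric.mem_closedBall, dist_zero_right, pi_norm_le_iff_of_nonneg zero_le_one]
  intro i
  obtain ⟨h2, h3, -⟩ := h1 i
  have h4 : ‖(p i).2.1‖ ≤ 1 ∧ ‖(p i).2.2‖ ≤ 1 := by
    rcases h3 with ⟨a, b⟩ | ⟨a, b⟩
    · exact ⟨by rw [a]; simp, b.le⟩
    · exact ⟨b.le, by rw [a]; simp⟩
  exact norm_prod_le_iff.mpr ⟨h2, norm_prod_le_iff.mpr h4⟩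

theorem exists_net (k : ℕ) {ε : ℝ} (hε : 0 < ε) :
    ∃ S : Finset (Z k), (∀ v ∈ S, v ∈ Ys k) ∧ ∀ p ∈ Ys k, ∃ v ∈ S, dist v p < ε := by
  classical
  have htb : TotallyBounded (Ys k) :=
    (isCompact_closedBall (0 : Z k) 1).totallyBounded.subset Ys_sub
  obtain ⟨t, ht, htf, hcov⟩ := Metric.finite_approx_of_totallyBounded htb ε hε
  refine ⟨htf.toFinset, fun v hv => ht (htf.mem_toFinset.mp hv), fun p hp => ?_⟩
  obtain ⟨v, hv, hpv⟩ := Set.mem_iUnion₂.mp (hcov hp)
  exact ⟨v, htf.mem_toFinset.mpr hv, by rw [dist_comm]; exact hpv⟩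

theorem Ys_nonempty {k : ℕ} (hk : 0 < k) : (Ys k).Nonempty := by
  refine ⟨fun _ => (1, 1, 1), fun i => ?_, ⟨0, hk⟩, by simp⟩
  refine ⟨by simp, Or.inl ⟨rfl, by simp⟩, fun _ => ?_⟩
  simp only [norm_one, Complex.ofReal_one, div_one, one_pow]
  constructor
  · rw [al_one]; unfold q₁; norm_num
  · rw [al_one]; unfold q₂; norm_num

section map

variable {k : ℕ}

/-- complex coordinates -/
noncomputable def u (X : Sph (2 * k)) (i : Fin k) : ℂ :=
  ⟨X.1 ⟨2 * i, by omega⟩, X.1 ⟨2 * i + 1, by omega⟩⟩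

theorem u_cont : Continuous (fun X : Sph (2 * k) => u X) := by
  refine continuous_pi fun i => ?_
  unfold u
  have h1 : Continuous (fun X : Sph (2 * k) => X.1 ⟨2 * i, by omega⟩) := by fun_prop
  have h2 : Continuous (fun X : Sph (2 * k) => X.1 ⟨2 * i + 1, by omega⟩) := by fun_prop
  have h3 : Continuous (fun X : Sph (2 * k) =>
      ((X.1 ⟨2 * i, by omega⟩ : ℝ) : ℂ) + ((X.1 ⟨2 * i + 1, by omega⟩ : ℝ) : ℂ) * Complex.I) := by
    fun_prop
  refine h3.congr fun X => ?_
  apply Complex.ext <;> simp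

theorem u_neg (X : Sph (2 * k)) : u (-X) = - u X := by
  funext i
  apply Complex.ext <;> simp [u]

noncomputable def kap (k : ℕ) : ℝ := 1 / (2 * k)

noncomputable def xs (X : Sph (2 * k)) (i : Fin k) : ℂ :=
  ((2 / max ‖u X‖ (kap k) : ℝ) : ℂ) * u X i

theorem kap_pos (hk : 0 < k) : 0 < kap k := by
  unfold kap
  have : (0 : ℝ) < k := by exact_mod_cast hk
  positivity

theorem xs_cont (hk : 0 < k) : Continuous (fun X : Sph (2 * k) => xs X) := by
  refine continuous_pi fun i => ?_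
  unfold xs
  refine Continuous.mul (Complex.continuous_ofReal.comp (Continuous.div continuous_const
    (u_cont.norm.max continuous_const) (fun X => ?_))) ((continuous_apply i).comp u_cont)
  exact (lt_of_lt_of_le (kap_pos hk) (le_max_right _ _)).ne'

theorem xs_neg (X : Sph (2 * k)) (i : Fin k) : xs (-X) i = - xs X i := by
  unfold xs
  rw [u_neg, norm_neg, Pi.neg_apply, mul_neg]

theorem xs_norm (hk : 0 < k) (X : Sph (2 * k)) (i : Fin k) :
    ‖xs X i‖ = 2 * ‖u X i‖ / max ‖u X‖ (kap k) := by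
  unfold xs
  have h0 : 0 < max ‖u X‖ (kap k) := lt_of_lt_of_le (kap_pos hk) (le_max_right _ _)
  rw [norm_mul, Complex.norm_real, Real.norm_eq_abs, abs_of_pos (by positivity)]
  ring

theorem xs_le (hk : 0 < k) (X : Sph (2 * k)) (i : Fin k) : ‖xs X i‖ ≤ 2 := by
  rw [xs_norm hk]
  have h0 : 0 < max ‖u X‖ (kap k) := lt_of_lt_of_le (kap_pos hk) (le_max_right _ _)
  rw [div_le_iff₀ h0]
  have h1 : ‖u X i‖ ≤ ‖u X‖ := norm_le_pi_norm _ _
  have h2 := le_max_left ‖u X‖ (kap k)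
  linarith

noncomputable def xx (X : Sph (2 * k)) (j : ℕ) : ℂ := if h : j < k then xs X ⟨j, h⟩ else 0

noncomputable def t (X : Sph (2 * k)) : ℕ → ℝ
  | 0 => 6 * X.1 ⟨2 * k, by omega⟩
  | j + 1 => T (xx X j) (t X j)

theorem xx_cont (hk : 0 < k) (j : ℕ) : Continuous (fun X : Sph (2 * k) => xx X j) := by
  unfold xx
  by_cases h : j < k
  · simp only [h, dite_true]
    exact (continuous_apply _).comp (xs_cont hk)
  · simp only [h, dite_false]
    exact continuous_const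

theorem xx_neg (X : Sph (2 * k)) (j : ℕ) : xx (-X) j = - xx X j := by
  unfold xx
  split_ifs
  · exact xs_neg _ _
  · simp

theorem t_cont (hk : 0 < k) (j : ℕ) : Continuous (fun X : Sph (2 * k) => t X j) := by
  induction j with
  | zero => simp only [t]; fun_prop
  | succ j ih =>
    simp only [t]
    exact T_cont.comp ((xx_cont hk j).prodMk ih)

theorem t_neg (X : Sph (2 * k)) (j : ℕ) : t (-X) j = - t X j := by
  induction j with
  | zero => simp [t]
  | succ j ih =>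
    simp only [t]
    rw [xx_neg, ih, T_neg]

theorem t_lt {X : Sph (2 * k)} {n : ℕ} (h : |t X n| < 3) : ∀ j ≤ n, |t X j| < 3 := by
  induction n with
  | zero => intro j hj; rw [Nat.le_zero.mp hj]; exact h
  | succ n ih =>
    intro j hj
    rcases Nat.lt_or_ge n j with h1 | h1
    · have : j = n + 1 := by omega
      rw [this]; exact h
    · exact ih (abs_lt_of_T h) j h1

theorem s_lt {X : Sph (2 * k)} {n : ℕ} (h : |t X n| < 3) {j : ℕ} (hj : j < n) :
    |s (xx X j) (t X j)| < 1 :=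
  s_lt_of_T (t_lt h (j + 1) hj)

/-- the point of `Y_k` -/
noncomputable def pp (X : Sph (2 * k)) : Z k := fun i =>
  (Y (xs X i), A (xs X i) (t X i), B (xs X i) (t X i))

theorem pp_neg (X : Sph (2 * k)) : pp (-X) = nu (pp X) := by
  funext i
  simp only [pp, nu]
  rw [xs_neg, t_neg, Y_neg, A_neg, B_neg]

theorem u_big (hk : 0 < k) {X : Sph (2 * k)} (h : |t X 0| < 3) : kap k ≤ ‖u X‖ := by
  by_contra hc
  push Not at hc
  have h1 : ∀ j : Fin (2 * k + 1), (j : ℕ) < 2 * k → |X.1 j| ≤ kap k := by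
    intro j hj
    have hi : (j : ℕ) / 2 < k := by omega
    have h2 : ‖u X ⟨j / 2, hi⟩‖ ≤ kap k := (norm_le_pi_norm (u X) _).trans hc.le
    rcases Nat.mod_two_eq_zero_or_one (j : ℕ) with h3 | h3
    · have h4 : (u X ⟨j / 2, hi⟩).re = X.1 j := by
        have h5 : (⟨2 * ((j : ℕ) / 2), by omega⟩ : Fin (2 * k + 1)) = j := by
          apply Fin.ext
          simp only
          omega
        simp only [u]
        rw [h5]
      rw [← h4]
      exact (Complex.abs_re_le_norm _).trans h2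
    · have h4 : (u X ⟨j / 2, hi⟩).im = X.1 j := by
        have h5 : (⟨2 * ((j : ℕ) / 2) + 1, by omega⟩ : Fin (2 * k + 1)) = j := by
          apply Fin.ext
          simp only
          omega
        simp only [u]
        rw [h5]
      rw [← h4]
      exact (Complex.abs_im_le_norm _).trans h2
  have h2 : |X.1 ⟨2 * k, by omega⟩| < 1 / 2 := by
    simp only [t] at h
    rw [abs_mul, abs_of_pos (by norm_num : (0:ℝ) < 6)] at h
    linarith
  have h3 : ∑ j, (X.1 j) ^ 2 = 1 := by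
    have h4 := X.2
    rw [mem_sphere_zero_iff_norm, EuclideanSpace.norm_eq, Real.sqrt_eq_one] at h4
    simpa [sq_abs] using h4
  rw [Fin.sum_univ_castSucc] at h3
  have h5 : ∑ i : Fin (2 * k), (X.1 (Fin.castSucc i)) ^ 2 ≤ ∑ i : Fin (2 * k), (kap k) ^ 2 := by
    refine Finset.sum_le_sum fun i _ => ?_
    rw [← sq_abs]
    have := h1 (Fin.castSucc i) (by simp)
    gcongr
  rw [Finset.sum_const, Finset.card_univ, Fintype.card_fin, nsmul_eq_mul] at h5
  have h6 : (X.1 (Fin.last (2 * k))) ^ 2 < 1 / 4 := by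
    have h7 : Fin.last (2 * k) = ⟨2 * k, by omega⟩ := rfl
    rw [h7, ← sq_abs]
    have := abs_nonneg (X.1 ⟨2 * k, by omega⟩)
    nlinarith
  have hk1 : (1 : ℝ) ≤ k := by exact_mod_cast hk
  have h8 : ((2 * k : ℕ) : ℝ) * kap k ^ 2 ≤ 1 / 2 := by
    unfold kap
    push_cast
    rw [div_pow, one_pow, mul_one_div, div_le_iff₀ (by positivity)]
    nlinarith
  linarith

theorem pp_mem (hk : 0 < k) {X : Sph (2 * k)} (h : |t X k| < 3) : pp X ∈ Ys k := by
  have hs : ∀ i : Fin k, |s (xs X i) (t X i)| < 1 := by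
    intro i
    have := s_lt h i.2
    unfold xx at this
    rwa [dif_pos i.2] at this
  refine ⟨fun i => psi_mem (xs_le hk X i) (hs i), ?_⟩
  have h0 := u_big hk (t_lt h 0 (Nat.zero_le _))
  have : Nonempty (Fin k) := ⟨⟨0, hk⟩⟩
  obtain ⟨i, hi⟩ : ∃ i, ‖u X‖ = ‖u X i‖ := by
    obtain ⟨i, hi⟩ := Finite.exists_max (fun i => ‖u X i‖)
    refine ⟨i, le_antisymm ?_ (norm_le_pi_norm _ _)⟩
    rw [pi_norm_le_iff_of_nonneg (norm_nonneg _)]
    exact hi
  refine ⟨i, ?_⟩
  simp only [pp]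
  rw [Y_norm, xs_norm hk, ← hi, max_eq_left h0]
  have : 0 < ‖u X‖ := lt_of_lt_of_le (kap_pos hk) h0
  have h2 : 2 * ‖u X‖ / ‖u X‖ = 2 := by field_simp
  rw [h2]; norm_num

theorem pp_contAt (hk : 0 < k) {X : Sph (2 * k)} (h : |t X k| < 3) : ContinuousAt pp X := by
  rw [continuousAt_pi]
  intro i
  have hs : |s (xs X i) (t X i)| < 1 := by
    have := s_lt h i.2
    unfold xx at this
    rwa [dif_pos i.2] at this
  have hxi : Continuous (fun X : Sph (2 * k) => xs X i) := (continuous_apply i).comp (xs_cont hk)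
  have hp : ContinuousAt (fun X : Sph (2 * k) => ((xs X i, t X i) : ℂ × ℝ)) X :=
    (hxi.prodMk (t_cont hk i)).continuousAt
  have h1 : ContinuousAt (fun X : Sph (2 * k) => A (xs X i) (t X i)) X :=
    ContinuousAt.comp (f := fun X : Sph (2 * k) => ((xs X i, t X i) : ℂ × ℝ))
      (g := fun p : ℂ × ℝ => A p.1 p.2) (A_contAt hs) hp
  have h2 : ContinuousAt (fun X : Sph (2 * k) => B (xs X i) (t X i)) X :=
    ContinuousAt.comp (f := fun X : Sph (2 * k) => ((xs X i, t X i) : ℂ × ℝ))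
      (g := fun p : ℂ × ℝ => B p.1 p.2) (B_contAt hs) hp
  exact (Y_cont.comp hxi).continuousAt.prodMk (h1.prodMk h2)

end map

end Pool.Agent.H370R3.Net
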